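import Pool.Agent.Helper24.T3.Gen
import Pool.Agent.Helper42.NS.PsiR

/-! Quantitative forms: probabilities of events of restricted spaces, informations and entropies on events,
quantitatively rich directions, functions which are small with small probability only. -/

set_option autoImplicit false

namespace Pool.Agent.Helper24.T3

open Finset Filter Topology Pool.Agent.Helper69.RK Pool.Agent.Helper31.EC Pool.Agent.Helper31.EC.Sp
open Pool.Agent.Helper25.EC QS Pool.Agent.Helper38.NS Pool.Agent.Helper42.NS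

noncomputable section

variable {S : Sp}

/-! ### probabilities -/

theorem ul_pr_and (E R : ∀ k, (S.F k).Ω → Prop) :
    ul (S.pr E) * ul ((S.rest E).pr R) = ul (S.pr fun k ω => E k ω ∧ R k ω) := by
  rw [← ul_mul (UB_pr E) (UB_pr (S := S.rest E) R)]
  congr 1
  funext k
  exact pb_rest (S.F k) (E k) (R k)

theorem ul_pr_mono {E E' : ∀ k, (S.F k).Ω → Prop}
    (h : ∀ᶠ k in UF, ∀ ω, (S.F k).μ ω ≠ 0 → E k ω → E' k ω) : ul (S.pr E) ≤ ul (S.pr E') :=
  ul_mono (UB_pr E) (UB_pr E') (h.mono fun k hk => (S.F k).pb_mono hk)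

theorem ul_pr_and_typ {E A : ∀ k, (S.F k).Ω → Prop} (hA : Typ A) :
    ul (S.pr E) ≤ ul (S.pr fun k ω => E k ω ∧ A k ω) := by
  have h1 : ul (S.pr E) ≤ ul (fun k => S.pr (fun k ω => E k ω ∧ A k ω) k + S.pr (fun k ω => ¬ A k ω) k) := by
    apply ul_mono (UB_pr E) ((UB_pr _).add (UB_pr _))
    refine Eventually.of_forall fun k => ?_
    have h2 := pb_and_add (S.F k) (A k) (E k)
    have h3 : (S.F k).pb (fun ω => ¬ A k ω ∧ E k ω) ≤ (S.F k).pb (fun ω => ¬ A k ω) :=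
      (S.F k).pb_mono fun ω _ h => h.1
    have h4 : (S.F k).pb (fun ω => A k ω ∧ E k ω) = (S.F k).pb (fun ω => E k ω ∧ A k ω) :=
      pb_congr fun ω _ => and_comm
    show (S.F k).pb (E k) ≤ (S.F k).pb (fun ω => E k ω ∧ A k ω) + (S.F k).pb (fun ω => ¬ A k ω)
    linarith
  rw [ul_add (UB_pr _) (UB_pr _), ul_pr_compl, ul_pr_typ _ hA, sub_self, add_zero] at h1
  exact h1

theorem ul_pr_or {E A B : ∀ k, (S.F k).Ω → Prop} (h : ∀ k ω, E k ω → A k ω ∨ B k ω) :
    ul (S.pr E) ≤ ul (S.pr A) + ul (S.pr B) := by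
  rw [← ul_add (UB_pr A) (UB_pr B)]
  apply ul_mono (UB_pr E) ((UB_pr A).add (UB_pr B))
  refine Eventually.of_forall fun k => ?_
  have h2 := pb_and_add (S.F k) (A k) (E k)
  have h3 : (S.F k).pb (fun ω => ¬ A k ω ∧ E k ω) ≤ (S.F k).pb (B k) :=
    (S.F k).pb_mono fun ω _ h' => (h k ω h'.2).resolve_left h'.1
  have h4 : (S.F k).pb (fun ω => A k ω ∧ E k ω) ≤ (S.F k).pb (A k) := (S.F k).pb_mono fun ω _ h => h.1
  show (S.F k).pb (E k) ≤ (S.F k).pb (A k) + (S.F k).pb (B k)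
  linarith

theorem ul_pr_pj {T : Sp} (p : Pj T S) (E : ∀ k, (S.F k).Ω → Prop) :
    ul (T.pr fun k ω => E k (p.π k ω)) = ul (S.pr E) := by
  congr 1
  funext k
  exact pb_comp (p.fp k) (E k)

/-- typical events of a restricted space are typical on smaller events of positive probability -/
theorem typ_rest_sub {E E2 : ∀ k, (S.F k).Ω → Prop} (hsub : ∀ k ω, E2 k ω → E k ω) (hE2 : 0 < ul (S.pr E2))
    {A : ∀ k, (S.F k).Ω → Prop} (hA : Typ (S := S.rest E) A) : Typ (S := S.rest E2) A := by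
  have hE : 0 < ul (S.pr E) := lt_of_lt_of_le hE2 (ul_pr_mono (Eventually.of_forall fun k ω _ h => hsub k ω h))
  rcases typ_or (S := S.rest E2) A with h | h
  · exact h
  · exfalso
    have h1 : 0 < ul (S.pr fun k ω => E2 k ω ∧ ¬ A k ω) :=
      lt_of_lt_of_eq (mul_pos hE2 h) (ul_pr_and E2 fun k ω => ¬ A k ω)
    have h2 : ul (S.pr fun k ω => E2 k ω ∧ ¬ A k ω) ≤ ul (S.pr fun k ω => E k ω ∧ ¬ A k ω) :=
      ul_pr_mono (Eventually.of_forall fun k ω _ h => ⟨hsub k ω h.1, h.2⟩)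
    have h3 : ul ((S.rest E).pr fun k ω => ¬ A k ω) = 0 := by
      have h4 := ul_pr_compl (S := S.rest E) A
      rw [ul_pr_typ _ hA, sub_self] at h4
      exact h4
    have h5 : ul (S.pr fun k ω => E k ω ∧ ¬ A k ω) = 0 :=
      (ul_pr_and E fun k ω => ¬ A k ω).symm.trans (mul_eq_zero_of_right _ h3)
    linarith

/-- small functions on an event are small on smaller events -/
theorem mem_rest_sub {E E2 : ∀ k, (S.F k).Ω → Prop} (hE : 0 < ul (S.pr E)) (hsub : ∀ k ω, E2 k ω → E k ω)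
    (hE2 : 0 < ul (S.pr E2)) {f : QS S} {r : ℝ} (hr : r ≤ 1) (h : QS.rest E hE f ∈ Id (S.rest E) r) :
    QS.rest E2 hE2 f ∈ Id (S.rest E2) r := by
  obtain ⟨f, rfl⟩ := mk_surj f
  rw [QS.rest_mk, mk_mem_Id hr] at h ⊢
  obtain ⟨A, K, hA, hK, hh⟩ := h
  refine ⟨A, K, typ_rest_sub hsub hE2 hA, hK, ?_⟩
  filter_upwards [hh, rest_mem _ hE2] with k hk hk2 ω hω hAω
  obtain ⟨h1, h2⟩ := hk2 ω hω
  exact hk ω ((S.F k).rest_supp' (E k) ω h1 (hsub k ω h2)) hAω

/-! ### entropies on events -/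

theorem mul_h_rest (E : ∀ k, (S.F k).Ω → Prop) (hE : 0 < ul (S.pr E)) (x y : S.L) :
    ul (S.pr E) * Pool.Agent.Helper31.EC.h (restL E hE x) (restL E hE y) ≤ Pool.Agent.Helper31.EC.h x y := by
  rcases typ_or E with ht | hE'
  · have h1 : Pool.Agent.Helper31.EC.h (restL E hE x) (restL E hE y) = Pool.Agent.Helper31.EC.h x y :=
      h_restL_typ E ht x y
    rw [h1]
    exact mul_le_of_le_one_left (h_nonneg _ _) (ul_pr_le_one E)
  · have h1 := h_split E hE hE' x y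
    have h2 := mul_nonneg (sub_nonneg.mpr (ul_pr_le_one E)) (h_nonneg (restL (fun k ω => ¬ E k ω) hE' x)
      (restL (fun k ω => ¬ E k ω) hE' y))
    linarith

theorem mul_H_rest (E : ∀ k, (S.F k).Ω → Prop) (hE : 0 < ul (S.pr E)) (x : S.L) :
    ul (S.pr E) * H (restL E hE x) ≤ H x := by
  have h1 := mul_h_rest E hE x ⊥
  rw [restL_bot, h_bot, h_bot] at h1
  exact h1

theorem mul_I_rest (E : ∀ k, (S.F k).Ω → Prop) (hE : 0 < ul (S.pr E)) (x y z : S.L) :
    ul (S.pr E) * I (restL E hE x) (restL E hE y) (restL E hE z) ≤ I x y z := by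
  rcases typ_or E with ht | hE'
  · have h1 : ∀ a b : S.L, Pool.Agent.Helper31.EC.h (restL E hE a) (restL E hE b) = Pool.Agent.Helper31.EC.h a b :=
      fun a b => h_restL_typ E ht a b
    have h2 : I (restL E hE x) (restL E hE y) (restL E hE z) = I x y z := by
      rw [I_eq, ← restL_sup, h1, h1, ← I_eq]
    rw [h2]
    exact mul_le_of_le_one_left (I_nonneg _ _ _) (ul_pr_le_one E)
  · have h1 := I_split E hE hE' x y z
    have h2 := mul_nonneg (sub_nonneg.mpr (ul_pr_le_one E)) (I_nonneg (restL (fun k ω => ¬ E k ω) hE' x)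
      (restL (fun k ω => ¬ E k ω) hE' y) (restL (fun k ω => ¬ E k ω) hE' z))
    linarith

/-- nearly maximal entropies on events -/
theorem rest_near_max (E : ∀ k, (S.F k).Ω → Prop) (hE : 0 < ul (S.pr E)) {x : S.L} {M η : ℝ} (h0 : M - η ≤ H x)
    (hη : 0 ≤ η) (hM : ∀ (E' : ∀ k, (S.F k).Ω → Prop) (hE' : 0 < ul (S.pr E')), H (restL E' hE' x) ≤ M) :
    ul (S.pr E) * (M - H (restL E hE x)) ≤ η := by
  rcases typ_or E with ht | hE'
  · have h1 : H (restL E hE x) = H x := H_restL_typ E ht hE x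
    rw [h1]
    calc ul (S.pr E) * (M - H x) ≤ ul (S.pr E) * η := mul_le_mul_of_nonneg_left (by linarith) hE.le
      _ ≤ 1 * η := mul_le_mul_of_nonneg_right (ul_pr_le_one E) hη
      _ = η := one_mul _
  · have h1 := H_split E hE hE' x
    have h2 := mul_nonneg (sub_nonneg.mpr (ul_pr_le_one E)) (sub_nonneg.mpr (hM _ hE'))
    nlinarith

/-! ### quantitatively rich directions -/

/-- `g r ≤ h(x_r | B)` on all events of all extensions -/
def RichG {ι : Type} [Fintype ι] (x : ι → QS S) (B : S.L) (g : ℝ) : Prop :=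
  ∀ (T : Sp) (p : Pj T S) (E : ∀ k, (T.F k).Ω → Prop) (hE : 0 < ul (T.pr E)) (r : ℝ), 0 ≤ r → r ≤ 1 →
    g * r ≤ Pool.Agent.Helper31.EC.h (restL E hE (p.map (vd x r))) (restL E hE (p.map B))

variable {ι : Type} [Fintype ι] {x : ι → QS S} {B : S.L} {g : ℝ}

theorem RichG.rich (h : RichG x B g) (hg : 0 < g) : Rich x B := by
  intro T p E hE r h0 h1 hc
  have h2 := h T p E hE r h0.le h1
  rw [h_zero hc] at h2
  have h3 := mul_pos hg h0
  linarith

theorem RichG.rest (h : RichG x B g) (E : ∀ k, (S.F k).Ω → Prop) (hE : 0 < ul (S.pr E)) :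
    RichG (fun i => QS.rest E hE (x i)) (restL E hE B) g := by
  intro T' p' E' hE' r h0 h1
  obtain ⟨W, q, D, hD, hh⟩ := tower E hE p' E' hE'
  rw [QS.rest_vd, ← hh]
  exact h W q D hD r h0 h1

/-- quantitative form of `Rich.ne_bot` -/
theorem RichG.le (h : RichG x B g) {T : Sp} (p : Pj T S) (E : ∀ k, (T.F k).Ω → Prop) (hE : 0 < ul (T.pr E)) {r : ℝ}
    (h0 : 0 ≤ r) (h1 : r ≤ 1) : g * r ≤ H (restL E hE (p.map (vd x r))) :=
  (h T p E hE r h0 h1).trans (h_le_H _ _)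

/-! ### functions which are small with small probability -/

/-- `f` is smaller than `2 ^ (-ε n)`, up to subexponential factors, with probability at most `ε` -/
def NSm (f : QS S) (ε : ℝ) : Prop :=
  ∀ (u : TR S) (K : ℕ → ℝ), mk u = f → S.Sub K → ul (S.pr fun k ω => |TR.ev u k ω| ≤ K k * S.dl ε k) ≤ ε

theorem NSm.of_rep {u : TR S} {ε : ℝ} (hε : ε ≤ 1)
    (h : ∀ K : ℕ → ℝ, S.Sub K → ul (S.pr fun k ω => |TR.ev u k ω| ≤ K k * S.dl ε k) ≤ ε) : NSm (mk u) ε := by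
  intro v K hv hK
  obtain ⟨A, L, hA, hL, hh⟩ := mk_eq.mp hv
  refine ((ul_pr_and_typ hA).trans (ul_pr_mono ?_)).trans (h (fun k => K k + L k) (hK.add hL))
  filter_upwards [hh, hL.1] with k hk hk0 ω hω hE
  have h1 := hk ω hω hE.2
  have h2 := abs_sub_abs_le_abs_sub (TR.ev u k ω) (TR.ev v k ω)
  rw [abs_sub_comm] at h2
  have h3 := mul_le_mul_of_nonneg_left (S.dl_anti hε k) hk0
  have h4 := hE.1
  rw [add_mul]
  linarith

theorem NSm.pull {T : Sp} (p : Pj T S) {f : QS S} {ε : ℝ} (hε : ε ≤ 1) (h : NSm f ε) : NSm (p.qs f) ε := by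
  obtain ⟨u, rfl⟩ := mk_surj f
  have e : p.qs (mk u) = mk (p.tr u) := rfl
  rw [e]
  apply NSm.of_rep hε
  intro K hK
  refine le_trans (le_of_eq ?_) (h u K rfl (sub_down p hK))
  rw [← ul_pr_pj p]
  congr 1
  have h1 : ∀ k, T.dl ε k = S.dl ε k := by
    intro k
    unfold Sp.dl
    rw [p.hn k]
  have h2 : (fun (k : ℕ) (ω : (T.F k).Ω) => |TR.ev (p.tr u) k ω| ≤ K k * T.dl ε k) =
      fun k ω => |TR.ev u k (p.π k ω)| ≤ K k * S.dl ε k := by
    funext k ω
    rw [h1]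
    rfl
  rw [h2]

end

end Pool.Agent.Helper24.T3
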