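import Pool.Agent.Helper24.T3.Apy
import Pool.Agent.Helper40.NSK.Flat

/-! (T3) for the corners of the skeleton: the field `st` of `CorH`, with errors. -/

set_option autoImplicit false

namespace Pool.Agent.Helper24.T3

open Finset Filter Topology Pool.Agent.Helper69.RK Pool.Agent.Helper31.EC Pool.Agent.Helper31.EC.Sp
open Pool.Agent.Helper25.EC QS Pool.Agent.Helper38.NS Pool.Agent.Helper42.NS Pool.Agent.Helper40.NSK

noncomputable section

variable {S : Sp}

/-- adding one copy, for any property of the determinants which passes to extensions -/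
theorem snoc_all (P : ∀ W : Sp, QS W → Prop) (hP : ∀ (T W : Sp) (p : Pj T W) (f : QS W), P W f → P T (p.qs f))
    {α : ℕ → Type} {V : ∀ k, (S.F k).Ω → α k} (hV : Bdd V) {x : Fin 2 → QS S} {n : ℕ} (C : Cps S V n)
    (h : ∀ i j k, i ≠ j → j ≠ k → i ≠ k → P _ (dt x (C.p i) (C.p j) (C.p k)))
    (hnew : ∀ i j, i ≠ j → P _ (dt x (((C.p 0).join V).p1.comp (C.p i))
      (((C.p 0).join V).p1.comp (C.p j)) ((C.p 0).join V).p2)) :
    ∀ i j k, i ≠ j → j ≠ k → i ≠ k → P _ (dt x ((snoc C hV).p i) ((snoc C hV).p j) ((snoc C hV).p k)) := by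
  have key : ∀ i j : Fin (n + 1), i ≠ j →
      P _ (dt x ((snoc C hV).p i.castSucc) ((snoc C hV).p j.castSucc) ((snoc C hV).p (Fin.last (n + 1)))) := by
    intro i j hij
    rw [snoc_cast, snoc_cast, snoc_last]
    exact hnew i j hij
  intro i j k h1 h2 h3
  induction i using Fin.lastCases with
  | last =>
    rw [dt_cyc]
    induction j using Fin.lastCases with
    | last => exact absurd rfl h1
    | cast j =>
      induction k using Fin.lastCases with
      | last => exact absurd rfl h3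
      | cast k => exact key j k fun e => h2 (congrArg Fin.castSucc e)
  | cast i =>
    induction j using Fin.lastCases with
    | last =>
      rw [dt_cyc, dt_cyc]
      induction k using Fin.lastCases with
      | last => exact absurd rfl h2
      | cast k => exact key k i fun e => h3 (congrArg Fin.castSucc e.symm)
    | cast j =>
      induction k using Fin.lastCases with
      | last => exact key i j fun e => h1 (congrArg Fin.castSucc e)
      | cast k =>
        have h4 := hP _ _ ((C.p 0).join V).p1 _ (h i j k (fun e => h1 (congrArg Fin.castSucc e))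
          (fun e => h2 (congrArg Fin.castSucc e)) fun e => h3 (congrArg Fin.castSucc e))
        rw [← dt_comp] at h4
        rw [snoc_cast, snoc_cast, snoc_cast]
        exact h4

/-- independence of two copies -/
theorem cps_two {α : ℕ → Type} {V : ∀ k, (S.F k).Ω → α k} {n : ℕ} (C : Cps S V n) {i j : Fin (n + 1)} (hij : i ≠ j)
    (X Y : S.L) : I ((C.p i).map X) ((C.p j).map Y) ((C.p i).map (io V)) = 0 := by
  classical
  have hv : ∀ l, (C.p l).map (io V) = (C.p 0).map (io V) := fun l => C.common l 0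
  have hs : ∀ A : Fin (n + 1) → S.L, (∀ l, l ≠ i → l ≠ j → A l = ⊥) →
      (Finset.univ.sup fun l => (C.p l).map (A l)) = (C.p i).map (A i) ⊔ (C.p j).map (A j) := by
    intro A hA
    apply le_antisymm
    · apply Finset.sup_le
      intro l _
      by_cases h1 : l = i
      · rw [h1]
        exact le_sup_left
      · by_cases h2 : l = j
        · rw [h2]
          exact le_sup_right
        · rw [hA l h1 h2, Pj.map_bot]
          exact bot_le
    · exact sup_le (Finset.le_sup (f := fun l => (C.p l).map (A l)) (Finset.mem_univ i))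
        (Finset.le_sup (f := fun l => (C.p l).map (A l)) (Finset.mem_univ j))
  have hsum : ∀ A : Fin (n + 1) → S.L, (∀ l, l ≠ i → l ≠ j → A l = ⊥) →
      ∑ l, Pool.Agent.Helper31.EC.h (A l) (io V) =
        Pool.Agent.Helper31.EC.h (A i) (io V) + Pool.Agent.Helper31.EC.h (A j) (io V) := by
    intro A hA
    rw [← Finset.sum_pair (f := fun l => Pool.Agent.Helper31.EC.h (A l) (io V)) hij]
    symm
    apply Finset.sum_subset (Finset.subset_univ _)
    intro l _ hl
    rw [Finset.mem_insert, Finset.mem_singleton, not_or] at hl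
    rw [hA l hl.1 hl.2]
    exact h_zero bot_le
  have k1 : Pool.Agent.Helper31.EC.h ((C.p i).map X ⊔ (C.p j).map Y) ((C.p 0).map (io V)) =
      Pool.Agent.Helper31.EC.h X (io V) + Pool.Agent.Helper31.EC.h Y (io V) := by
    have h1 := C.indep fun l => if l = i then X else if l = j then Y else ⊥
    rw [hs _ (fun l a b => by rw [if_neg a, if_neg b]), hsum _ (fun l a b => by rw [if_neg a, if_neg b])] at h1
    rw [if_pos rfl, if_neg hij.symm, if_pos rfl] at h1
    exact h1
  have k2 : Pool.Agent.Helper31.EC.h ((C.p i).map X) ((C.p 0).map (io V)) = Pool.Agent.Helper31.EC.h X (io V) := by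
    rw [← hv i, Pj.h_map]
  have k3 : Pool.Agent.Helper31.EC.h ((C.p j).map Y) ((C.p 0).map (io V)) = Pool.Agent.Helper31.EC.h Y (io V) := by
    rw [← hv j, Pj.h_map]
  rw [hv i, I_eq']
  rw [h_chain] at k1
  linarith

/-- **(T3), quantitative form.** -/
theorem gp_q {t : QS S} {a x : Fin 2 → QS S} {α β : ℕ → Type} {VB : ∀ k, (S.F k).Ω → α k}
    {VA : ∀ k, (S.F k).Ω → β k} {g η : ℝ} (h : TH t a x VB VA g η) (hg : 0 < g) (hg1 : g ≤ 1) {ε : ℝ} (hε : 0 < ε)
    (hε1 : ε ≤ 1) (hnum : 80 * η ≤ g * ε ^ 2) (n : ℕ) : ∀ i j k : Fin (n + 1), i ≠ j → j ≠ k → i ≠ k →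
      NSm (dt x ((can VB h.bB n).p i) ((can VB h.bB n).p j) ((can VB h.bB n).p k)) ε := by
  have hη : 0 ≤ η := (I_nonneg _ _ _).trans h.ind
  have hVB' := wZ_bdd h.bB
  have hR := h.rich.rich hg
  rw [← wZ_io h.bB] at hR
  induction n with
  | zero => exact fun i j k h1 _ _ => absurd (Fin.ext (by omega)) h1
  | succ n ih =>
    obtain ⟨C, hC⟩ : ∃ C, C = can VB h.bB n := ⟨_, rfl⟩
    rw [← hC] at ih
    rw [can_succ, ← hC]
    refine snoc_all (fun W f => NSm f ε) (fun T W p f hf => hf.pull p hε1) hVB' C ih fun i j hij => ?_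
    intro F K hF hK
    by_contra hcon
    push Not at hcon
    have hu := hR.vec_unit (C.p i) (C.p j) (C.common i j) (cps_two C hij _ _)
    have hF' : mk F = ((C.p 0).join (wZ VB)).p1.qs ((C.p j).qs (x 0) - (C.p i).qs (x 0)) *
        (((C.p 0).join (wZ VB)).p2.qs (x 1) - ((C.p 0).join (wZ VB)).p1.qs ((C.p i).qs (x 1))) -
        ((C.p 0).join (wZ VB)).p1.qs ((C.p j).qs (x 1) - (C.p i).qs (x 1)) *
        (((C.p 0).join (wZ VB)).p2.qs (x 0) - ((C.p 0).join (wZ VB)).p1.qs ((C.p i).qs (x 0))) := by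
      rw [hF]
      unfold dt
      simp only [Pj.comp_qs, map_sub]
    obtain ⟨a', b', E, hE, A, B, hab, hp, hA, hB, hA1, hrel⟩ := chart_q (wZ VB) (C.p 0) (C.p i) (C.p j) x hu hε1 hε.le
      F K hK hF' hcon
    have hEx : ∀ f : TR S, ExF (wZ VB) f → ExF VB f := by
      intro f hf k ω ω' h1 hZ
      apply hf k ω ω' _ hZ
      unfold wZ
      rw [h1, Quotient.sound hZ]
    refine no_chart_q h hg hg1 hη hab hε hε1 E (by linarith : 0 < ε / 2) hp hE (hEx A hA) (hEx B hB) hA1 hrel ?_
    nlinarith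

theorem NSm.big {f : QS S} {ε : ℝ} (h : NSm f ε) : Big f ε := by
  intro δ hδ
  refine (ul_pr_mono ?_).trans (h (QS.mk_surj f).choose (fun _ => 1) (QS.mk_surj f).choose_spec
    (S.Sub_const zero_le_one))
  refine Eventually.of_forall fun k ω _ h1 => ?_
  rw [one_mul]
  exact h1.trans (S.dl_anti hδ.le k)

/-- **THE FIELD `st` OF `CorH`**, base of dimension two, curves of any degree -/
theorem st_two {k : ℕ} (c : FC S 2 k) {α β : ℕ → Type} {VB : ∀ k, (S.F k).Ω → α k}
    {VA : ∀ k, (S.F k).Ω → β k} {g η : ℝ} (h : TH c.t c.a c.x VB VA g η) (hfB : ∀ l, c.fB l ∈ Fn VB)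
    (hvB : vd c.fB 1 = io VB) (hg : 0 < g) (hg1 : g ≤ 1) {ε : ℝ} (hε : 0 < ε) (hε1 : ε ≤ 1)
    (hnum : 80 * η ≤ g * ε ^ 2) (N : ℕ) :
    ∃ w : QS.CQ S c.fB N, ∀ e : Fin (2 + 1) → Fin (N + 1), Function.Injective e →
      Big (Matrix.of fun i j => (w.p (e i)).qs (c.v j)).det ε := by
  refine ⟨toCQ (can VB h.bB N) h.bB c.fB hfB hvB, fun e he => ?_⟩
  have h1 := gp_q h hg hg1 hε hε1 hnum N (e 0) (e 1) (e 2) (he.ne (by decide)) (he.ne (by decide)) (he.ne (by decide))
  have h2 : (Matrix.of fun i j => ((can VB h.bB N).p (e i)).qs (c.v j)).det =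
      dt c.x ((can VB h.bB N).p (e 0)) ((can VB h.bB N).p (e 1)) ((can VB h.bB N).p (e 2)) := by
    have e0 : ∀ i, (Matrix.of fun i j => ((can VB h.bB N).p (e i)).qs (c.v j)) i 0 = 1 :=
      fun i => map_one ((can VB h.bB N).p (e i)).qs
    have e1 : ∀ i, (Matrix.of fun i j => ((can VB h.bB N).p (e i)).qs (c.v j)) i 1 =
        ((can VB h.bB N).p (e i)).qs (c.x 0) := fun i => rfl
    have e2 : ∀ i, (Matrix.of fun i j => ((can VB h.bB N).p (e i)).qs (c.v j)) i 2 =
        ((can VB h.bB N).p (e i)).qs (c.x 1) := fun i => rfl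
    rw [Matrix.det_fin_three, e0, e0, e0, e1, e1, e1, e2, e2, e2]
    unfold dt
    ring
  rw [← h2] at h1
  exact h1.big

theorem big_of_unit {f : QS S} (hf : IsUnit f) {ε : ℝ} (hε : 0 ≤ ε) : Big f ε := by
  intro δ hδ
  have hm : mk (QS.mk_surj f).choose = f := (QS.mk_surj f).choose_spec
  rw [← hm] at hf
  obtain ⟨K, hK, hT⟩ := isUnit_mk.mp hf
  refine le_trans ((ul_pr_and_typ hT).trans (ul_pr_mono (E' := fun _ _ => False) ?_)) ?_
  · have hδ2 : 0 < δ / 2 := by linarith
    filter_upwards [hK.eventually_le hδ2, hK.1] with k hk hk0 ω _ h1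
    obtain ⟨h2, h3⟩ := h1
    have h4 : K k * |TR.ev (QS.mk_surj f).choose k ω| ≤ K k * S.dl δ k := mul_le_mul_of_nonneg_left h2 hk0
    have h5 : S.dl δ k = S.dl (δ / 2) k * S.dl (δ / 2) k := by
      rw [← S.dl_add]
      congr 1
      ring
    have h6 : 2 ^ (δ / 2 * (S.F k).n) * S.dl (δ / 2) k = 1 := by
      unfold Sp.dl
      rw [← Real.rpow_add (by norm_num : (0 : ℝ) < 2)]
      simp
    have h7 := S.dl_pos (δ / 2) k
    have h8 : S.dl (δ / 2) k ≤ 1 := by
      unfold Sp.dl
      apply Real.rpow_le_one_of_one_le_of_nonpos (by norm_num)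
      have := (S.F k).pos
      have : 0 ≤ δ / 2 * (S.F k).n := by positivity
      linarith
    have h9 := mul_le_mul_of_nonneg_right hk h7.le
    nlinarith
  · have h1 : S.pr (fun _ _ => False) = fun _ => 0 := by
      funext k
      have h2 := (S.F k).pb_add_compl (fun _ => False)
      have h3 : (S.F k).pb (fun _ => ¬ False) = 1 := pb_eq_one fun _ _ h => h
      show (S.F k).pb (fun _ => False) = 0
      linarith
    rw [h1, ul_const]
    exact hε

/-- the field `st` of `CorH`, base of dimension one, curves of any degree: only richness is needed -/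
theorem st_one {k : ℕ} (c : FC S 1 k) (hR : Rich c.x (vd c.fB 1)) {ε : ℝ} (hε : 0 ≤ ε) (N : ℕ) :
    ∃ w : QS.CQ S c.fB N, ∀ e : Fin (1 + 1) → Fin (N + 1), Function.Injective e →
      Big (Matrix.of fun i j => (w.p (e i)).qs (c.v j)).det ε := by
  obtain ⟨w⟩ := exists_CQ c.fB N
  refine ⟨w, fun e he => big_of_unit ?_ hε⟩
  have e0 : ∀ i, (Matrix.of fun i j => (w.p (e i)).qs (c.v j)) i 0 = 1 := fun i => map_one (w.p (e i)).qs
  have e1 : ∀ i, (Matrix.of fun i j => (w.p (e i)).qs (c.v j)) i 1 = (w.p (e i)).qs (c.x 0) := fun i => rfl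
  rw [Matrix.det_fin_two, e0, e0, e1, e1, one_mul, mul_one]
  by_contra hc
  obtain ⟨δ, E, hE, h0, h1, h2⟩ := small_of_not_unit hc
  have hv : ∀ i, (w.p i).map (vd c.fB 1) = w.v := w.p_v
  refine hR.far (w.p (e 1)) (w.p (e 0)) ((hv _).trans (hv _).symm) ?_ E hE h0 h1 fun l => ?_
  · rw [hv]
    exact w.I_two (he.ne (by decide)) _ _
  · rw [Fin.fin_one_eq_zero l]
    exact h2

end

end Pool.Agent.Helper24.T3
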