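import Pool.Agent.Helper24.T3.Ric
import Pool.Agent.Helper25.EC.M1

/-! The line which contains the direction on an event is, on the event, a function of the line; a common function of
point and line and the contradiction with the fullness of the point. -/

set_option autoImplicit false

namespace Pool.Agent.Helper24.T3

open Finset Filter Topology Pool.Agent.Helper69.RK Pool.Agent.Helper31.EC Pool.Agent.Helper31.EC.Sp
open Pool.Agent.Helper25.EC QS Pool.Agent.Helper38.NS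

noncomputable section

variable {S : Sp}

/-- AGREEMENT: a function of the point which is close to a function of the line, on an event, is constant there -/
def AgC {α β : ℕ → Type} (VB : ∀ k, (S.F k).Ω → α k) (VA : ∀ k, (S.F k).Ω → β k) : Prop :=
  ∀ (E : ∀ k, (S.F k).Ω → Prop) (hE : 0 < ul (S.pr E)) (g g' : QS S) (r : ℝ), 0 < r → r ≤ 1 →
    g ∈ Fn VB → g' ∈ Fn VA → QS.rest E hE (g - g') ∈ Id (S.rest E) r → dg (QS.rest E hE g) r = ⊥

/-- two copies over `V` have the same exact functions of `V` -/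
theorem two_Fn {α : ℕ → Type} {V : ∀ k, (S.F k).Ω → α k} {f : QS S} (hf : f ∈ Fn V) :
    (two1 V).qs f = (two2 V).qs f := by
  obtain ⟨g, hg, rfl⟩ := hf
  show mk ((two1 V).tr g) = mk ((two2 V).tr g)
  rw [mk_eq]
  apply Ag_of_pt
  refine Eventually.of_forall fun k w hw => ?_
  have h1 := (((Pj.id S).join V).supp k w hw).1
  have h2 : (V k w.1, Quotient.mk (S.F k).Z w.1) = (V k w.2, Quotient.mk (S.F k).Z w.2) := h1
  rw [Prod.mk.injEq] at h2
  have h3 : TR.ev g k w.1 = TR.ev g k w.2 := hg k _ _ h2.1 (Quotient.exact h2.2)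
  have h4 : TR.ev ((two1 V).tr g) k w = TR.ev ((two2 V).tr g) k w := h3
  rw [h4, sub_self, abs_zero]
  exact ((two V).dl_pos _ k).le

/-- STEP D: the slope of the line which contains the direction agrees for two copies with the same direction -/
theorem slope_close {x : Fin 2 → QS S} {M : S.L} (hR : Rich x M) {a b : Fin 2} (hab : ∀ l, l = a ∨ l = b) {δ : ℝ}
    (hδ1 : δ ≤ 1) {A B : TR S} (hA : dg (mk A) δ = ⊥) (hB : dg (mk B) δ = ⊥)
    (hrel : x b - mk A * x a - mk B ∈ Id S δ) {r : ℝ} (hr0 : 0 < r) (hr : r < δ) {D : Sp} (w1 w2 : Pj D S)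
    (hw : ∀ l, w1.qs (x l) = w2.qs (x l)) :
    Typ (S := D) (fun k w => |TR.ev A k (w1.π k w) - TR.ev A k (w2.π k w)| ≤ D.dl r k) := by
  by_contra hc
  have hpos : 0 < ul (D.pr fun k w => ¬ |TR.ev A k (w1.π k w) - TR.ev A k (w2.π k w)| ≤ D.dl r k) := by
    rcases typ_or (fun k w => |TR.ev A k (w1.π k w) - TR.ev A k (w2.π k w)| ≤ D.dl r k) with h | h
    · exact absurd h hc
    · exact h
  obtain ⟨E, hE⟩ : ∃ E : ∀ k, (D.F k).Ω → Prop, E = fun k w =>
    ¬ |TR.ev A k (w1.π k w) - TR.ev A k (w2.π k w)| ≤ D.dl r k := ⟨_, rfl⟩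
  rw [← hE] at hpos
  obtain ⟨ξ, hξ⟩ : ∃ ξ : TR S, mk ξ = x a := ⟨rep (x a), mk_rep _⟩
  obtain ⟨u, hu⟩ : ∃ u : TR D, u = w1.tr ξ := ⟨_, rfl⟩
  obtain ⟨F, hF⟩ : ∃ F : TR D, F = w1.tr A - w2.tr A := ⟨_, rfl⟩
  obtain ⟨H, hH⟩ : ∃ H : TR D, H = w2.tr B - w1.tr B := ⟨_, rfl⟩
  have hum : mk u = w1.qs (x a) := by
    rw [hu, ← hξ]
    rfl
  have hFm : mk F = w1.qs (mk A) - w2.qs (mk A) := by
    rw [hF]
    exact map_sub _ _ _
  have hHm : mk H = w2.qs (mk B) - w1.qs (mk B) := by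
    rw [hH]
    exact map_sub _ _ _
  have hAg : TR.Ag δ (u * F) H := by
    have h1 := (Id D δ).sub_mem ((w2.qs_mem_Id hδ1).mpr hrel) ((w1.qs_mem_Id hδ1).mpr hrel)
    rw [map_sub, map_sub, map_mul, map_sub, map_sub, map_mul, ← hw, ← hw] at h1
    have e : w1.qs (x b) - w2.qs (mk A) * w1.qs (x a) - w2.qs (mk B) -
        (w1.qs (x b) - w1.qs (mk A) * w1.qs (x a) - w1.qs (mk B)) = mk (u * F - H) := by
      rw [map_sub, map_mul, hum, hFm, hHm]
      ring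
    rw [e, mk_mem_Id hδ1] at h1
    obtain ⟨A', K', hA', hK', hh⟩ := h1
    refine ⟨A', K', hA', hK', ?_⟩
    filter_upwards [hh] with k hk ω h2 h3
    have h4 := hk ω h2 h3
    rw [TR.ev_zero, sub_zero, TR.ev_sub] at h4
    exact h4
  have h1 := div_dg_le (rst E u) (rst E F) (rst E H) δ r (by
    filter_upwards [rest_mem E hpos] with k hk w hw'
    have h2 := (hk w hw').2
    rw [hE, not_le] at h2
    have h3 : TR.ev (rst E F) k w = TR.ev A k (w1.π k w) - TR.ev A k (w2.π k w) := by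
      rw [hF]
      rfl
    rw [h3]
    exact h2) (ag_rst E hpos hAg)
  have hz : ∀ f : TR S, dg (mk f) δ = ⊥ → ∀ w : Pj D S, dg (w.qs (mk f)) δ ≤ ⊥ := by
    intro f hf w
    rw [w.qs_dg, hf, w.map_bot]
  have hFb : TR.dg (rst E F) δ = ⊥ := by
    rw [rst_dg E hpos, ← dg_mk F hδ1, hFm]
    have h2 : dg (w1.qs (mk A) - w2.qs (mk A)) δ ≤ ⊥ := (Kn D δ hδ1 ⊥).sub_mem (hz A hA w1) (hz A hA w2)
    rw [le_bot_iff.mp h2, restL_bot]
  have hHb : TR.dg (rst E H) δ = ⊥ := by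
    rw [rst_dg E hpos, ← dg_mk H hδ1, hHm]
    have h2 : dg (w2.qs (mk B) - w1.qs (mk B)) δ ≤ ⊥ := (Kn D δ hδ1 ⊥).sub_mem (hz B hB w2) (hz B hB w1)
    rw [le_bot_iff.mp h2, restL_bot]
  have hs1 : δ - r ≤ 1 := by linarith
  rw [hFb, hHb, sup_bot_eq, rst_dg E hpos, ← dg_mk u hs1, hum, ← QS.rest_dg] at h1
  have ha : dg (QS.rest E hpos (w1.qs (x a))) (δ - r) = ⊥ := le_bot_iff.mp h1
  have hb : dg (QS.rest E hpos (w1.qs (x b))) (δ - r) = ⊥ := by
    have h2 := rest_mem_Id E hpos hδ1 ((w1.qs_mem_Id hδ1).mpr hrel)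
    simp only [map_sub, map_mul] at h2
    have e : QS.rest E hpos (w1.qs (x b)) - QS.rest E hpos (w1.qs (mk A)) * QS.rest E hpos (w1.qs (x a)) -
        QS.rest E hpos (w1.qs (mk B)) = QS.rest E hpos (w1.qs (x b)) -
        (QS.rest E hpos (w1.qs (mk A)) * QS.rest E hpos (w1.qs (x a)) + QS.rest E hpos (w1.qs (mk B))) := by ring
    rw [e] at h2
    rw [dg_eq_of_sub_mem h2 (by linarith : δ - r ≤ δ) hs1]
    have hz2 : ∀ f : TR S, dg (mk f) δ = ⊥ → dg (QS.rest E hpos (w1.qs (mk f))) (δ - r) ≤ ⊥ := by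
      intro f hf
      rw [QS.rest_dg, w1.qs_dg]
      have h3 : dg (mk f) (δ - r) ≤ ⊥ := (dg_mono _ (by linarith)).trans hf.le
      rw [le_bot_iff.mp h3, w1.map_bot, restL_bot]
    apply le_bot_iff.mp
    exact (Kn _ (δ - r) hs1 ⊥).add_mem ((Kn _ (δ - r) hs1 ⊥).mul_mem (hz2 A hA) ha.le) (hz2 B hB)
  refine hR.ne_bot w1 E hpos (by linarith : 0 < δ - r) hs1 fun i => ?_
  rcases hab i with rfl | rfl
  · exact ha
  · exact hb

/-- STEP E: on an event the slope of the line is a function of the direction -/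
theorem exists_slope {x : Fin 2 → QS S} {β : ℕ → Type} (VA : ∀ k, (S.F k).Ω → β k) (hx : ∀ l, x l ∈ Fn VA)
    {M : S.L} (hR : Rich x M) {a b : Fin 2} (hab : ∀ l, l = a ∨ l = b) {δ : ℝ} (hδ1 : δ ≤ 1) {A B : TR S}
    (hA : dg (mk A) δ = ⊥) (hB : dg (mk B) δ = ⊥)
    (hrel : x b - mk A * x a - mk B ∈ Id S δ) {r : ℝ} (hr0 : 0 < r) (hr : r < δ) :
    ∃ c : ∀ k, (S.F k).Ω → (S.F k).Ω, (∀ k ω ω', VA k ω = VA k ω' → (S.F k).Z ω ω' → c k ω = c k ω') ∧
      Typ (fun k ω => |TR.ev A k ω - TR.ev A k (c k ω)| ≤ S.dl r k) := by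
  have h1 := slope_close hR hab hδ1 hA hB hrel hr0 hr (two1 VA) (two2 VA) fun l => two_Fn (hx l)
  obtain ⟨c, hc1, hc2⟩ := exists_rep VA fun k ω ω' => |TR.ev A k ω - TR.ev A k ω'| ≤ S.dl r k
  refine ⟨c, hc1, ?_⟩
  unfold Typ at h1 ⊢
  refine tendsto_of_tendsto_of_tendsto_of_le_of_le tendsto_const_nhds h1 (fun k => mass_res_nonneg k _) (fun k => ?_)
  exact hc2 k

theorem Fn_rest {α : ℕ → Type} {V : ∀ k, (S.F k).Ω → α k} {f : QS S} (hf : f ∈ Fn V)
    (E : ∀ k, (S.F k).Ω → Prop) (hE : 0 < ul (S.pr E)) : QS.rest E hE f ∈ Fn (S := S.rest E) V := by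
  obtain ⟨g, hg, rfl⟩ := hf
  exact ⟨TR.rest E g, fun k ω ω' h hZ => hg k ω ω' h hZ, rfl⟩

/-- STEP F: no line which is a function of the point contains the direction on an event -/
theorem no_chart {s : FB S 2} {α β : ℕ → Type} (VB : ∀ k, (S.F k).Ω → α k) (VA : ∀ k, (S.F k).Ω → β k)
    (hVB : Bdd VB) (hfB : ∀ j, s.fQ j ∈ Fn VB) (ha : ∀ i, s.a i ∈ Fn VA) (hx : ∀ i, s.x i ∈ Fn VA)
    (hag : AgC VB VA) (hR : Rich s.x (io VB)) (hind : I (vd s.x 1) (io VB) ⊥ = 0) (hq : Rl s.q ⊥)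
    {a b : Fin 2} (hab : ∀ l, l = a ∨ l = b) {δ : ℝ} (hδ : 0 < δ) (hδ1 : δ ≤ 1)
    (E : ∀ k, (S.F k).Ω → Prop) (hE : 0 < ul (S.pr E)) {A B : TR S} (hA : ExF VB A) (hB : ExF VB B)
    (hA1 : ∀ k ω, |TR.ev A k ω| ≤ 1)
    (hrel : QS.rest E hE (s.x b - mk A * s.x a - mk B) ∈ Id (S.rest E) δ) : False := by
  have hne : a ≠ b := by
    rintro rfl
    rcases hab 0 with h | h <;> rcases hab 1 with h' | h' <;> · rw [← h] at h'; exact absurd h' (by decide)
  have hVB' : Bdd (S := S.rest E) VB := rest_VB E hVB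
  have hrel' : QS.rest E hE (s.x b) - mk (TR.rest E A) * QS.rest E hE (s.x a) - mk (TR.rest E B) ∈ Id (S.rest E) δ := by
    rw [← QS.rest_mk E hE, ← QS.rest_mk E hE, ← map_mul, ← map_sub, ← map_sub]
    exact hrel
  have hR' := hR.rest E hE
  rw [restL_io E hE hVB] at hR'
  have hind' : I (vd (fun i => QS.rest E hE (s.x i)) 1) (io (S := S.rest E) VB) ⊥ = 0 := by
    have h1 := I_rest_zero E hE hind
    rw [restL_bot, restL_io E hE hVB, ← QS.rest_vd] at h1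
    exact h1
  obtain ⟨hA0, hB0⟩ := line_bot (S := S.rest E) (x := fun i => QS.rest E hE (s.x i)) VB hVB' hind' hR' hab hδ hδ1
    (A := TR.rest E A) (B := TR.rest E B) (fun k ω ω' h hZ => hA k ω ω' h hZ) (fun k ω ω' h hZ => hB k ω ω' h hZ)
    hrel'
  have hd2 : 0 < δ / 2 := by linarith
  obtain ⟨c, hc1, hc2⟩ := exists_slope (S := S.rest E) (x := fun i => QS.rest E hE (s.x i)) VA
    (fun l => Fn_rest (hx l) E hE) hR' hab hδ1 hA0 hB0 hrel' hd2 (by linarith : δ / 2 < δ)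
  obtain ⟨A', hA'⟩ : ∃ A' : TR S, ∀ k ω, TR.ev A' k ω = TR.ev A k (c k ω) :=
    ⟨⟨fun k ω => TR.ev A k (c k ω), fun _ => 1, S.Sub_const zero_le_one,
      Eventually.of_forall fun k ω _ => hA1 k (c k ω)⟩, fun _ _ => rfl⟩
  have hA'e : ExF VA A' := by
    intro k ω ω' h hZ
    rw [hA', hA', hc1 k ω ω' h hZ]
  have hsub : ∀ k (ω : (S.F k).Ω), TR.ev (A - A') k ω = TR.ev A k ω - TR.ev A k (c k ω) := by
    intro k ω
    rw [TR.ev_sub, hA']
  have hAA : QS.rest E hE (mk A - mk A') ∈ Id (S.rest E) (δ / 2) := by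
    rw [← map_sub, QS.rest_mk, mk_mem_Id (by linarith)]
    refine ⟨_, fun _ => 1, hc2, (S.rest E).Sub_const zero_le_one, Eventually.of_forall fun k ω _ h => ?_⟩
    rw [one_mul, TR.ev_zero, sub_zero]
    have h1 : TR.ev (TR.rest E (A - A')) k ω = TR.ev A k ω - TR.ev A k (c k ω) := hsub k ω
    rw [h1]
    exact h
  -- the common function
  obtain ⟨g, hg⟩ : ∃ g, g = s.y b - mk A * s.y a - mk B * s.t := ⟨_, rfl⟩
  obtain ⟨g', hg'⟩ : ∃ g', g' = s.a b - mk A' * s.a a := ⟨_, rfl⟩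
  have hy : ∀ i, s.y i ∈ Fn VB := fun i => hfB (Sum.inl i.succ)
  have ht : s.t ∈ Fn VB := hfB (Sum.inl 0)
  have hgB : g ∈ Fn VB := by
    rw [hg]
    exact (Fn VB).sub_mem ((Fn VB).sub_mem (hy b) ((Fn VB).mul_mem ⟨A, hA, rfl⟩ (hy a)))
      ((Fn VB).mul_mem ⟨B, hB, rfl⟩ ht)
  have hgA : g' ∈ Fn VA := by
    rw [hg']
    exact (Fn VA).sub_mem (ha b) ((Fn VA).mul_mem ⟨A', hA'e, rfl⟩ (ha a))
  have hgg : QS.rest E hE (g - g') ∈ Id (S.rest E) (δ / 2) := by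
    have e : g - g' = s.t * (s.x b - mk A * s.x a - mk B) - s.a a * (mk A - mk A') := by
      rw [hg, hg']
      unfold FB.y
      ring
    rw [e, map_sub, map_mul, map_mul]
    exact (Id _ _).sub_mem ((Id _ _).mul_mem_left _ (Id_anti (by linarith) hrel)) ((Id _ _).mul_mem_left _ hAA)
  have hg0 := hag E hE g g' (δ / 2) hd2 (by linarith) hgB hgA hgg
  have hq' := hq.rest E hE
  rw [restL_bot] at hq'
  refine real_no_rel (T := S.rest E) (fun j => QS.rest E hE (s.q j)) hq' b.succ ![a.succ, 0] ?_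
    ![QS.rest E hE (mk A), QS.rest E hE (mk B)] hd2 (by linarith) ?_ ?_
  · intro l
    fin_cases l
    · show a.succ ≠ b.succ
      exact fun h => hne (Fin.succ_injective _ h)
    · show 0 ≠ b.succ
      exact (Fin.succ_ne_zero b).symm
  · intro l
    fin_cases l
    · show dg (mk (TR.rest E A)) (δ / 2) = ⊥
      exact le_bot_iff.mp ((dg_mono _ (by linarith)).trans hA0.le)
    · show dg (mk (TR.rest E B)) (δ / 2) = ⊥
      exact le_bot_iff.mp ((dg_mono _ (by linarith)).trans hB0.le)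
  · rw [Fin.sum_univ_two]
    show dg (QS.rest E hE (s.y b) - (QS.rest E hE (mk A) * QS.rest E hE (s.y a) +
      QS.rest E hE (mk B) * QS.rest E hE s.t)) (δ / 2) = ⊥
    have e : QS.rest E hE (s.y b) - (QS.rest E hE (mk A) * QS.rest E hE (s.y a) +
      QS.rest E hE (mk B) * QS.rest E hE s.t) = QS.rest E hE g := by
      rw [hg, map_sub, map_sub, map_mul, map_mul]
      ring
    rw [e]
    exact hg0

end

end Pool.Agent.Helper24.T3
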