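import Pool.Agent.Helper24.T3.Qn

/-! Quantitative forms of the steps: the line which contains the direction has small rate; its slope is a function of
the line with large probability; contradiction. -/

set_option autoImplicit false

namespace Pool.Agent.Helper24.T3

open Finset Filter Topology Pool.Agent.Helper69.RK Pool.Agent.Helper31.EC Pool.Agent.Helper31.EC.Sp
open Pool.Agent.Helper25.EC QS Pool.Agent.Helper38.NS Pool.Agent.Helper42.NS

noncomputable section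

variable {S : Sp}

theorem H_le_I {L : Type*} [PM L] {X Y Z : L} (h1 : Z ≤ X) (h2 : Z ≤ Y) : H Z ≤ I X Y ⊥ := by
  have h3 : I Z Z ⊥ ≤ I X Y ⊥ := I_mono (h1.trans le_sup_left) (h2.trans le_sup_left)
  rw [I_eq, sup_bot_eq, h_bot, h_self, sub_zero] at h3
  exact h3

/-- the line which contains the direction is a function of two directions -/
theorem line_two {x : Fin 2 → QS S} {α : ℕ → Type} (V : ∀ k, (S.F k).Ω → α k) (hV : Bdd V)
    (hR : Rich x (io V)) {a b : Fin 2} (hab : ∀ l, l = a ∨ l = b) {δ : ℝ}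
    (hδ : 0 < δ) (hδ1 : δ ≤ 1) {A B : TR S} (hA : ExF V A) (hB : ExF V B)
    (hrel : x b - mk A * x a - mk B ∈ Id S δ) :
    (two1 V).map (io V) = (two2 V).map (io V) ∧
      (∀ X Y : S.L, I ((two1 V).map X) ((two2 V).map Y) ((two1 V).map (io V)) = 0) ∧
      dg ((two1 V).qs (mk A)) δ ≤ (two1 V).map (vd x 1) ⊔ (two2 V).map (vd x 1) := by
  have hcom : (two1 V).map (io V) = (two2 V).map (io V) := by
    have h1 := (Pj.id S).join_common V hV
    rw [Pj.id_map] at h1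
    exact h1
  have hci : ∀ X Y : S.L, I ((two1 V).map X) ((two2 V).map Y) ((two1 V).map (io V)) = 0 := by
    intro X Y
    have h1 := (Pj.id S).join_indep V hV X Y
    rw [Pj.id_map] at h1
    exact h1
  refine ⟨hcom, hci, ?_⟩
  have hex : ∀ f : TR S, ExF V f → (two1 V).qs (mk f) = (two2 V).qs (mk f) := fun f hf => two_Fn ⟨f, hf, rfl⟩
  obtain ⟨Da, hDa⟩ : ∃ Da, Da = (two1 V).qs (x a) - (two2 V).qs (x a) := ⟨_, rfl⟩
  obtain ⟨Db, hDb⟩ : ∃ Db, Db = (two1 V).qs (x b) - (two2 V).qs (x b) := ⟨_, rfl⟩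
  have hd : Db - (two1 V).qs (mk A) * Da ∈ Id (two V) δ := by
    have h1 := (Id (two V) δ).sub_mem (((two1 V).qs_mem_Id hδ1).mpr hrel) (((two2 V).qs_mem_Id hδ1).mpr hrel)
    rw [map_sub, map_sub, map_mul, map_sub, map_sub, map_mul, ← hex A hA, ← hex B hB] at h1
    have e : (two1 V).qs (x b) - (two1 V).qs (mk A) * (two1 V).qs (x a) - (two1 V).qs (mk B) -
        ((two2 V).qs (x b) - (two1 V).qs (mk A) * (two2 V).qs (x a) - (two1 V).qs (mk B)) =
          Db - (two1 V).qs (mk A) * Da := by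
      rw [hDa, hDb]
      ring
    rw [e] at h1
    exact h1
  have hunit : IsUnit Da := by
    by_contra hcon
    obtain ⟨δ', E, hE, h0, h1, h2⟩ := small_of_not_unit hcon
    have hm : 0 < min δ δ' := lt_min hδ h0
    have ha : QS.rest E hE Da ∈ Id _ (min δ δ') := Id_anti (min_le_right _ _) h2
    have hb : QS.rest E hE Db ∈ Id _ (min δ δ') := by
      have h3 := rest_mem_Id E hE hδ1 hd
      rw [map_sub, map_mul] at h3
      have h4 := (Id _ (min δ δ')).add_mem (Id_anti (min_le_left _ _) h3)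
        ((Id _ (min δ δ')).mul_mem_left (QS.rest E hE ((two1 V).qs (mk A))) ha)
      rwa [sub_add_cancel] at h4
    refine hR.far (two1 V) (two2 V) hcom (hci _ _) E hE hm ((min_le_left _ _).trans hδ1) fun l => ?_
    rcases hab l with rfl | rfl
    · rw [← hDa]
      exact ha
    · rw [← hDb]
      exact hb
  obtain ⟨u, hu⟩ := hunit.exists_left_inv
  have h1 : (two1 V).qs (mk A) - u * Db ∈ Id (two V) δ := by
    have h2 := (Id (two V) δ).mul_mem_left (-u) hd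
    have e : -u * (Db - (two1 V).qs (mk A) * Da) = (two1 V).qs (mk A) * (u * Da) - u * Db := by ring
    rw [e, hu, mul_one] at h2
    exact h2
  rw [dg_eq_of_sub_mem h1 le_rfl hδ1]
  have kx : ∀ l, dg ((two1 V).qs (x l)) δ ≤ (two1 V).map (vd x 1) ⊔ (two2 V).map (vd x 1) := fun l => by
    rw [(two1 V).qs_dg]
    exact ((two1 V).map_mono ((dg_mono _ hδ1).trans (dg_le_vd x 1 l))).trans le_sup_left
  have kx' : ∀ l, dg ((two2 V).qs (x l)) δ ≤ (two1 V).map (vd x 1) ⊔ (two2 V).map (vd x 1) := fun l => by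
    rw [(two2 V).qs_dg]
    exact ((two2 V).map_mono ((dg_mono _ hδ1).trans (dg_le_vd x 1 l))).trans le_sup_right
  have kD : dg Da δ ≤ (two1 V).map (vd x 1) ⊔ (two2 V).map (vd x 1) := by
    rw [hDa]
    exact (Kn _ δ hδ1 _).sub_mem (kx a) (kx' a)
  refine (Kn _ δ hδ1 _).mul_mem ((dg_inv_le hu hδ1).trans kD) ?_
  rw [hDb]
  exact (Kn _ δ hδ1 _).sub_mem (kx b) (kx' b)

/-- STEP C, quantitative: the line has small rate -/
theorem line_q {x : Fin 2 → QS S} {α : ℕ → Type} (V : ∀ k, (S.F k).Ω → α k) (hV : Bdd V) {η : ℝ}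
    (hind : I (vd x 1) (io V) ⊥ ≤ η) (hR : Rich x (io V)) {a b : Fin 2} (hab : ∀ l, l = a ∨ l = b) {δ : ℝ}
    (hδ : 0 < δ) (hδ1 : δ ≤ 1) {A B : TR S} (hA : ExF V A) (hB : ExF V B)
    (hrel : x b - mk A * x a - mk B ∈ Id S δ) : H (dg (mk A) δ) ≤ 2 * η ∧ H (dg (mk B) δ) ≤ 3 * η := by
  obtain ⟨hcom, hci, hA1⟩ := line_two V hV hR hab hδ hδ1 hA hB hrel
  obtain ⟨w1, hw1⟩ : ∃ w : Pj (two V) S, w = two1 V := ⟨_, rfl⟩
  obtain ⟨w2, hw2⟩ : ∃ w : Pj (two V) S, w = two2 V := ⟨_, rfl⟩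
  rw [← hw1, ← hw2] at hcom hA1
  rw [← hw1, ← hw2] at hci
  have hBdg : ∀ f : TR S, ExF V f → dg (mk f) δ ≤ io V := fun f hf => Fn_dg hV ⟨f, hf, rfl⟩ hδ1
  have hI2 : I (w1.map (vd x 1) ⊔ w2.map (vd x 1)) (w1.map (io V)) ⊥ ≤ 2 * η := by
    have j1 : I (w1.map (vd x 1)) (w1.map (io V)) ⊥ ≤ η := by
      have h1 := w1.I_map (vd x 1) (io V) ⊥
      rw [w1.map_bot] at h1
      rw [h1]
      exact hind
    have j2 : I (w2.map (vd x 1)) (w1.map (io V)) ⊥ ≤ η := by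
      have h1 := w2.I_map (vd x 1) (io V) ⊥
      rw [w2.map_bot, ← hcom] at h1
      rw [h1]
      exact hind
    have j3 : I (w2.map (vd x 1)) (w1.map (vd x 1) ⊔ w1.map (io V)) ⊥ ≤ η := by
      rw [sup_comm, I_chain_right, sup_bot_eq, I_comm (w2.map (vd x 1)) (w1.map (vd x 1)), hci, add_zero]
      exact j2
    rw [I_chain_right] at j3
    rw [I_chain]
    have h1 := I_nonneg (w2.map (vd x 1)) (w1.map (vd x 1)) ⊥
    linarith
  have a0 : H (dg (mk A) δ) ≤ 2 * η := by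
    have h1 : H (dg (w1.qs (mk A)) δ) ≤ 2 * η := by
      refine (H_le_I hA1 ?_).trans hI2
      rw [w1.qs_dg]
      exact w1.map_mono (hBdg A hA)
    rw [w1.qs_dg, Pj.H_map] at h1
    exact h1
  refine ⟨a0, ?_⟩
  have h1 : mk B - (x b - mk A * x a) ∈ Id S δ := by
    have h2 := (Id S δ).neg_mem hrel
    have e : -(x b - mk A * x a - mk B) = mk B - (x b - mk A * x a) := by ring
    rw [e] at h2
    exact h2
  have h2 : dg (mk B) δ ≤ dg (mk A) δ ⊔ vd x 1 := by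
    rw [dg_eq_of_sub_mem h1 le_rfl hδ1]
    refine (Kn _ δ hδ1 _).sub_mem (((dg_mono _ hδ1).trans (dg_le_vd x 1 b)).trans le_sup_right) ?_
    exact (Kn _ δ hδ1 _).mul_mem (show dg (mk A) δ ≤ _ from le_sup_left)
      (((dg_mono _ hδ1).trans (dg_le_vd x 1 a)).trans le_sup_right)
  refine (H_le_I h2 (hBdg B hB)).trans ?_
  rw [I_chain, sup_bot_eq]
  have h3 : I (dg (mk A) δ) (io V) ⊥ ≤ 2 * η := (I_le_h_left _ _ _).trans ((h_le_H _ _).trans a0)
  have h4 : I (vd x 1) (io V) (dg (mk A) δ) ≤ η := by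
    have h5 : I (vd x 1) (dg (mk A) δ ⊔ io V) ⊥ = I (vd x 1) (dg (mk A) δ) ⊥ +
      I (vd x 1) (io V) (dg (mk A) δ ⊔ ⊥) := I_chain_right _ _ _ _
    rw [sup_eq_right.mpr (hBdg A hA), sup_bot_eq] at h5
    have h6 := I_nonneg (vd x 1) (dg (mk A) δ) ⊥
    linarith
  linarith

/-- STEP D, quantitative: the slope of the line agrees for two copies with the same direction, with large probability -/
theorem slope_q {x : Fin 2 → QS S} {M : S.L} {g : ℝ} (hR : RichG x M g) {a b : Fin 2} (hab : ∀ l, l = a ∨ l = b)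
    {δ : ℝ} (hδ1 : δ ≤ 1) {A B : TR S} {η : ℝ} (hη : 0 ≤ η) (hA : H (dg (mk A) δ) ≤ 2 * η)
    (hB : H (dg (mk B) δ) ≤ 3 * η) (hrel : x b - mk A * x a - mk B ∈ Id S δ) {r : ℝ}
    (hr0 : 0 < r) (hr : r < δ) {D : Sp} (w1 w2 : Pj D S) (hw : ∀ l, w1.qs (x l) = w2.qs (x l)) :
    g * (δ - r) * ul (D.pr fun k w => ¬ |TR.ev A k (w1.π k w) - TR.ev A k (w2.π k w)| ≤ D.dl r k) ≤ 10 * η := by
  obtain ⟨E, hE⟩ : ∃ E : ∀ k, (D.F k).Ω → Prop, E = fun k w =>
    ¬ |TR.ev A k (w1.π k w) - TR.ev A k (w2.π k w)| ≤ D.dl r k := ⟨_, rfl⟩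
  rw [← hE]
  rcases le_or_gt (ul (D.pr E)) 0 with h0 | hpos
  · have h1 : ul (D.pr E) = 0 := by
      apply le_antisymm h0
      exact const_le_ul (UB_pr E) (Eventually.of_forall fun k => pr_nonneg E k)
    rw [h1, mul_zero]
    linarith
  obtain ⟨ξ, hξ⟩ : ∃ ξ : TR S, mk ξ = x a := ⟨rep (x a), mk_rep _⟩
  obtain ⟨u, hu⟩ : ∃ u : TR D, u = w1.tr ξ := ⟨_, rfl⟩
  obtain ⟨F, hF⟩ : ∃ F : TR D, F = w1.tr A - w2.tr A := ⟨_, rfl⟩
  obtain ⟨G, hG⟩ : ∃ G : TR D, G = w2.tr B - w1.tr B := ⟨_, rfl⟩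
  have hum : mk u = w1.qs (x a) := by
    rw [hu, ← hξ]
    rfl
  have hFm : mk F = w1.qs (mk A) - w2.qs (mk A) := by
    rw [hF]
    exact map_sub _ _ _
  have hGm : mk G = w2.qs (mk B) - w1.qs (mk B) := by
    rw [hG]
    exact map_sub _ _ _
  have hAg : TR.Ag δ (u * F) G := by
    have h1 := (Id D δ).sub_mem ((w2.qs_mem_Id hδ1).mpr hrel) ((w1.qs_mem_Id hδ1).mpr hrel)
    rw [map_sub, map_sub, map_mul, map_sub, map_sub, map_mul, ← hw, ← hw] at h1
    have e : w1.qs (x b) - w2.qs (mk A) * w1.qs (x a) - w2.qs (mk B) -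
        (w1.qs (x b) - w1.qs (mk A) * w1.qs (x a) - w1.qs (mk B)) = mk (u * F - G) := by
      rw [map_sub, map_mul, hum, hFm, hGm]
      ring
    rw [e, mk_mem_Id hδ1] at h1
    obtain ⟨A', K', hA', hK', hh⟩ := h1
    refine ⟨A', K', hA', hK', ?_⟩
    filter_upwards [hh] with k hk ω h2 h3
    have h4 := hk ω h2 h3
    rw [TR.ev_zero, sub_zero, TR.ev_sub] at h4
    exact h4
  have h1 := div_dg_le (rst E u) (rst E F) (rst E G) δ r (by
    filter_upwards [rest_mem E hpos] with k hk w hw'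
    have h2 := (hk w hw').2
    rw [hE, not_le] at h2
    have h3 : TR.ev (rst E F) k w = TR.ev A k (w1.π k w) - TR.ev A k (w2.π k w) := by
      rw [hF]
      rfl
    rw [h3]
    exact h2) (ag_rst E hpos hAg)
  have hs1 : δ - r ≤ 1 := by linarith
  obtain ⟨Q, hQ⟩ : ∃ Q : D.L, Q = (w1.map (dg (mk A) δ) ⊔ w2.map (dg (mk A) δ)) ⊔
    (w1.map (dg (mk B) δ) ⊔ w2.map (dg (mk B) δ)) := ⟨_, rfl⟩
  have hHQ : H Q ≤ 10 * η := by
    rw [hQ]
    have k1 := H_sup_le (w1.map (dg (mk A) δ) ⊔ w2.map (dg (mk A) δ)) (w1.map (dg (mk B) δ) ⊔ w2.map (dg (mk B) δ))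
    have k2 := H_sup_le (w1.map (dg (mk A) δ)) (w2.map (dg (mk A) δ))
    have k3 := H_sup_le (w1.map (dg (mk B) δ)) (w2.map (dg (mk B) δ))
    rw [Pj.H_map, Pj.H_map] at k2 k3
    linarith
  have qA1 : dg (w1.qs (mk A)) δ ≤ Q := by
    rw [hQ, w1.qs_dg]
    exact le_sup_left.trans le_sup_left
  have qA2 : dg (w2.qs (mk A)) δ ≤ Q := by
    rw [hQ, w2.qs_dg]
    exact le_sup_right.trans le_sup_left
  have qB1 : dg (w1.qs (mk B)) δ ≤ Q := by
    rw [hQ, w1.qs_dg]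
    exact le_sup_left.trans le_sup_right
  have qB2 : dg (w2.qs (mk B)) δ ≤ Q := by
    rw [hQ, w2.qs_dg]
    exact le_sup_right.trans le_sup_right
  have hFb : TR.dg (rst E F) δ ≤ restL E hpos Q := by
    rw [rst_dg E hpos, ← dg_mk F hδ1, hFm]
    exact restL_mono E hpos ((Kn D δ hδ1 Q).sub_mem qA1 qA2)
  have hGb : TR.dg (rst E G) δ ≤ restL E hpos Q := by
    rw [rst_dg E hpos, ← dg_mk G hδ1, hGm]
    exact restL_mono E hpos ((Kn D δ hδ1 Q).sub_mem qB2 qB1)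
  have ha : dg (QS.rest E hpos (w1.qs (x a))) (δ - r) ≤ restL E hpos Q := by
    rw [rst_dg E hpos, ← dg_mk u hs1, hum, ← QS.rest_dg] at h1
    exact h1.trans (sup_le hFb hGb)
  have hb : dg (QS.rest E hpos (w1.qs (x b))) (δ - r) ≤ restL E hpos Q := by
    have h2 := rest_mem_Id E hpos hδ1 ((w1.qs_mem_Id hδ1).mpr hrel)
    simp only [map_sub, map_mul] at h2
    have e : QS.rest E hpos (w1.qs (x b)) - QS.rest E hpos (w1.qs (mk A)) * QS.rest E hpos (w1.qs (x a)) -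
        QS.rest E hpos (w1.qs (mk B)) = QS.rest E hpos (w1.qs (x b)) -
        (QS.rest E hpos (w1.qs (mk A)) * QS.rest E hpos (w1.qs (x a)) + QS.rest E hpos (w1.qs (mk B))) := by ring
    rw [e] at h2
    rw [dg_eq_of_sub_mem h2 (by linarith : δ - r ≤ δ) hs1]
    have hz2 : ∀ f : QS D, dg f δ ≤ Q → dg (QS.rest E hpos f) (δ - r) ≤ restL E hpos Q := by
      intro f hf
      rw [QS.rest_dg]
      exact restL_mono E hpos ((dg_mono _ (by linarith)).trans hf)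
    exact (Kn _ (δ - r) hs1 _).add_mem ((Kn _ (δ - r) hs1 _).mul_mem (hz2 _ qA1) ha) (hz2 _ qB1)
  have hv : restL E hpos (w1.map (vd x (δ - r))) ≤ restL E hpos Q := by
    rw [← w1.qs_vd, ← QS.rest_vd, vd_le]
    intro i
    rcases hab i with rfl | rfl
    · exact ha
    · exact hb
  have h2 := (hR.le w1 E hpos (by linarith : 0 ≤ δ - r) hs1).trans (H_mono hv)
  have h3 := mul_H_rest E hpos Q
  nlinarith

theorem exists_slope_q {x : Fin 2 → QS S} {β : ℕ → Type} (VA : ∀ k, (S.F k).Ω → β k) (hx : ∀ l, x l ∈ Fn VA)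
    {M : S.L} {g : ℝ} (hR : RichG x M g) {a b : Fin 2} (hab : ∀ l, l = a ∨ l = b) {δ : ℝ} (hδ1 : δ ≤ 1) {A B : TR S}
    {η : ℝ} (hη : 0 ≤ η) (hA : H (dg (mk A) δ) ≤ 2 * η) (hB : H (dg (mk B) δ) ≤ 3 * η)
    (hrel : x b - mk A * x a - mk B ∈ Id S δ) {r : ℝ} (hr0 : 0 < r) (hr : r < δ) (hg : 0 ≤ g) :
    ∃ c : ∀ k, (S.F k).Ω → (S.F k).Ω, (∀ k ω ω', VA k ω = VA k ω' → (S.F k).Z ω ω' → c k ω = c k ω') ∧
      g * (δ - r) * (1 - ul (S.pr fun k ω => |TR.ev A k ω - TR.ev A k (c k ω)| ≤ S.dl r k)) ≤ 10 * η := by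
  have h1 := slope_q hR hab hδ1 hη hA hB hrel hr0 hr (two1 VA) (two2 VA) fun l => two_Fn (hx l)
  obtain ⟨c, hc1, hc2⟩ := exists_rep VA fun k ω ω' => |TR.ev A k ω - TR.ev A k ω'| ≤ S.dl r k
  refine ⟨c, hc1, le_trans ?_ h1⟩
  rw [← ul_pr_compl]
  apply mul_le_mul_of_nonneg_left _ (mul_nonneg hg (by linarith))
  exact ul_mono (UB_pr _) (UB_pr _) (Eventually.of_forall fun k => hc2 k)

end

end Pool.Agent.Helper24.T3
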