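import Pool.Agent.Helper24.T3.Apx

/-! (T3), quantitative form: under the agreement condition, with small errors in the independence of the direction and
in the fullness of the point, the canonical bushes are in general position with probability near one. -/

set_option autoImplicit false

namespace Pool.Agent.Helper24.T3

open Finset Filter Topology Pool.Agent.Helper69.RK Pool.Agent.Helper31.EC Pool.Agent.Helper31.EC.Sp
open Pool.Agent.Helper25.EC QS Pool.Agent.Helper38.NS Pool.Agent.Helper42.NS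

noncomputable section

variable {S : Sp}

/-- hypotheses: heights and points `y = a + t x` are literal functions of the point, `a` and `x` of the line; a
function of the point which is close to a function of the line on an event is constant there; the direction is rich
over the point and independent of the point up to `η`; the point of the base is full up to `η` -/
structure TH (t : QS S) (a x : Fin 2 → QS S) {α β : ℕ → Type} (VB : ∀ k, (S.F k).Ω → α k)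
    (VA : ∀ k, (S.F k).Ω → β k) (g η : ℝ) : Prop where
  bB : Bdd VB
  ht : t ∈ Fn VB
  hy : ∀ i, a i + t * x i ∈ Fn VB
  ha : ∀ i, a i ∈ Fn VA
  hx : ∀ i, x i ∈ Fn VA
  ag : AgC VB VA
  rich : RichG x (io VB) g
  ind : I (vd x 1) (io VB) ⊥ ≤ η
  full : 3 - η ≤ H (dg t 1 ⊔ vd (fun i => a i + t * x i) 1)

theorem div_le_of_mul {p q x y : ℝ} (hp : 0 < p) (hpq : p ≤ q) (h0 : 0 ≤ x) (h : q * x ≤ y) : x ≤ y / p := by
  rw [le_div_iff₀ hp]
  nlinarith

/-- nearly full points on an event, with a relation of small rate -/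
theorem full_contra {T : Sp} {t A B G : QS T} {y : Fin 2 → QS T} {a b : Fin 2} (hab : ∀ l, l = a ∨ l = b) {δ r η : ℝ}
    (hr : r ≤ δ) (hr1 : r ≤ 1) (hA : H (dg A δ) ≤ 2 * η) (hB : H (dg B δ) ≤ 3 * η)
    (hG : G = y b - A * y a - B * t) (hg : dg G r = ⊥) (hf : 3 - η ≤ H (dg t 1 ⊔ vd y 1)) : r ≤ 6 * η := by
  obtain ⟨Z, hZ⟩ : ∃ Z : T.L, Z = dg t 1 ⊔ dg (y a) 1 := ⟨_, rfl⟩
  obtain ⟨Q, hQ⟩ : ∃ Q : T.L, Q = dg A δ ⊔ dg B δ := ⟨_, rfl⟩
  have h1 : dg (y b) r ≤ Q ⊔ Z := by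
    have e : y b = G + A * y a + B * t := by
      rw [hG]
      ring
    rw [e]
    have kA : dg A r ≤ Q ⊔ Z := (dg_mono A hr).trans ((le_sup_left.trans hQ.ge).trans le_sup_left)
    have kB : dg B r ≤ Q ⊔ Z := (dg_mono B hr).trans ((le_sup_right.trans hQ.ge).trans le_sup_left)
    have ka : dg (y a) r ≤ Q ⊔ Z := (dg_mono _ hr1).trans ((le_sup_right.trans hZ.ge).trans le_sup_right)
    have kt : dg t r ≤ Q ⊔ Z := (dg_mono _ hr1).trans ((le_sup_left.trans hZ.ge).trans le_sup_right)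
    refine (Kn T r hr1 _).add_mem ((Kn T r hr1 _).add_mem ?_ ((Kn T r hr1 _).mul_mem kA ka))
      ((Kn T r hr1 _).mul_mem kB kt)
    show dg G r ≤ _
    rw [hg]
    exact bot_le
  have h2 : Pool.Agent.Helper31.EC.h (dg (y b) r) Z ≤ 5 * η := by
    have k1 : Pool.Agent.Helper31.EC.h (dg (y b) r) Z ≤ Pool.Agent.Helper31.EC.h Q Z := by
      refine (h_mono h1).trans ?_
      rw [h_sup_right_of_le le_rfl]
    have k2 := (h_le_H Q Z)
    have k3 := H_sup_le (dg A δ) (dg B δ)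
    rw [← hQ] at k3
    linarith
  have h3 : Pool.Agent.Helper31.EC.h (dg (y b) 1) Z ≤ 1 - r + 5 * η := by
    have k1 := h_triangle (dg (y b) 1) (dg (y b) r) Z
    have k2 : Pool.Agent.Helper31.EC.h (dg (y b) 1) (dg (y b) r ⊔ Z) ≤
        Pool.Agent.Helper31.EC.h (dg (y b) 1) (dg (y b) r) := h_anti le_sup_left
    have k3 := h_dg_dg (y b) hr1
    linarith
  have h4 : H (dg t 1 ⊔ vd y 1) ≤ 2 + (1 - r + 5 * η) := by
    have k1 : dg t 1 ⊔ vd y 1 ≤ Z ⊔ dg (y b) 1 := by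
      rw [hZ]
      refine sup_le (le_sup_left.trans le_sup_left) ?_
      rw [vd_le]
      intro i
      rcases hab i with rfl | rfl
      · exact le_sup_right.trans le_sup_left
      · exact le_sup_right
    have k2 := H_mono k1
    have k2' := H_chain Z (dg (y b) 1)
    have k3 : H Z ≤ 2 := by
      rw [hZ]
      have k4 := H_sup_le (dg t 1) (dg (y a) 1)
      have k5 := FB.H_dg1 t
      have k6 := FB.H_dg1 (y a)
      linarith
    linarith
  linarith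

/-- STEP F, quantitative -/
theorem no_chart_q {t : QS S} {a x : Fin 2 → QS S} {α β : ℕ → Type} {VB : ∀ k, (S.F k).Ω → α k}
    {VA : ∀ k, (S.F k).Ω → β k} {g η : ℝ} (h : TH t a x VB VA g η) (hg : 0 < g) (hg1 : g ≤ 1) (hη : 0 ≤ η)
    {i j : Fin 2} (hij : ∀ l, l = i ∨ l = j) {δ : ℝ} (hδ : 0 < δ) (hδ1 : δ ≤ 1)
    (E : ∀ k, (S.F k).Ω → Prop) {p0 : ℝ} (hp0 : 0 < p0) (hp : p0 ≤ ul (S.pr E)) (hE : 0 < ul (S.pr E)) {A B : TR S}
    (hA : ExF VB A) (hB : ExF VB B) (hA1 : ∀ k ω, |TR.ev A k ω| ≤ 1)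
    (hrel : QS.rest E hE (x j - mk A * x i - mk B) ∈ Id (S.rest E) δ) (hnum : 40 * η ≤ g * δ * p0) : False := by
  have key : ∀ (E' : ∀ k, (S.F k).Ω → Prop) (hE' : 0 < ul (S.pr E')) (q0 : ℝ), 0 < q0 → q0 ≤ ul (S.pr E') →
      QS.rest E' hE' (x j - mk A * x i - mk B) ∈ Id (S.rest E') δ →
      H (dg (mk (TR.rest E' A)) δ) ≤ 2 * (η / q0) ∧ H (dg (mk (TR.rest E' B)) δ) ≤ 3 * (η / q0) := by
    intro E' hE' q0 hq0 hq hr
    have hVB' : Bdd (S := S.rest E') VB := rest_VB E' h.bB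
    have hrel' : QS.rest E' hE' (x j) - mk (TR.rest E' A) * QS.rest E' hE' (x i) - mk (TR.rest E' B) ∈
        Id (S.rest E') δ := by
      rw [← QS.rest_mk E' hE', ← QS.rest_mk E' hE', ← map_mul, ← map_sub, ← map_sub]
      exact hr
    have hR' := (h.rich.rest E' hE').rich hg
    rw [restL_io E' hE' h.bB] at hR'
    have hind' : I (vd (fun i => QS.rest E' hE' (x i)) 1) (io (S := S.rest E') VB) ⊥ ≤ η / q0 := by
      have h1 := mul_I_rest E' hE' (vd x 1) (io VB) ⊥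
      have h2 := div_le_of_mul hq0 hq (I_nonneg _ _ _) (h1.trans h.ind)
      rw [restL_bot, restL_io E' hE' h.bB, ← QS.rest_vd] at h2
      exact h2
    exact line_q (S := S.rest E') (x := fun i => QS.rest E' hE' (x i)) VB hVB' hind' hR' hij hδ hδ1
      (A := TR.rest E' A) (B := TR.rest E' B) (fun k ω ω' h1 hZ => hA k ω ω' h1 hZ)
      (fun k ω ω' h1 hZ => hB k ω ω' h1 hZ) hrel'
  obtain ⟨hA0, hB0⟩ := key E hE p0 hp0 hp hrel
  have hd2 : 0 < δ / 2 := by linarith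
  have hrel' : QS.rest E hE (x j) - mk (TR.rest E A) * QS.rest E hE (x i) - mk (TR.rest E B) ∈ Id (S.rest E) δ := by
    rw [← QS.rest_mk E hE, ← QS.rest_mk E hE, ← map_mul, ← map_sub, ← map_sub]
    exact hrel
  obtain ⟨c, hc1, hc2⟩ := exists_slope_q (S := S.rest E) (x := fun i => QS.rest E hE (x i)) VA
    (fun l => Fn_rest (h.hx l) E hE) (h.rich.rest E hE) hij hδ1 (div_nonneg hη hp0.le) hA0 hB0 hrel' hd2
    (by linarith : δ / 2 < δ) hg.le
  obtain ⟨R, hR⟩ : ∃ R : ∀ k, (S.F k).Ω → Prop, R = fun k ω => |TR.ev A k ω - TR.ev A k (c k ω)| ≤ S.dl (δ / 2) k :=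
    ⟨_, rfl⟩
  have hc3 : g * (δ - δ / 2) * (1 - ul ((S.rest E).pr R)) ≤ 10 * (η / p0) := by
    rw [hR]
    exact hc2
  -- the smaller event
  obtain ⟨E2, hE2d⟩ : ∃ E2 : ∀ k, (S.F k).Ω → Prop, E2 = fun k ω => E k ω ∧ R k ω := ⟨_, rfl⟩
  have hhalf : p0 / 2 ≤ ul (S.pr E2) := by
    have h1 : ul (S.pr E) * ul ((S.rest E).pr R) = ul (S.pr E2) := by
      rw [hE2d]
      exact ul_pr_and E R
    have h2 : (1 : ℝ) / 2 ≤ ul ((S.rest E).pr R) := by
      by_contra hcon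
      push Not at hcon
      have h3 : g * (δ - δ / 2) * (1 / 2) < g * (δ - δ / 2) * (1 - ul ((S.rest E).pr R)) :=
        mul_lt_mul_of_pos_left (by linarith) (mul_pos hg (by linarith))
      have h4 : 10 * (η / p0) ≤ g * (δ - δ / 2) * (1 / 2) := by
        rw [← mul_div_assoc, div_le_iff₀ hp0]
        nlinarith
      linarith
    rw [← h1]
    nlinarith
  have hE2 : 0 < ul (S.pr E2) := lt_of_lt_of_le (by linarith) hhalf
  have hrel2 : QS.rest E2 hE2 (x j - mk A * x i - mk B) ∈ Id (S.rest E2) δ :=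
    mem_rest_sub hE (fun k ω h' => by rw [hE2d] at h'; exact h'.1) hE2 hδ1 hrel
  obtain ⟨hA2, hB2⟩ := key E2 hE2 (p0 / 2) (by linarith) hhalf hrel2
  obtain ⟨A', hA'⟩ : ∃ A' : TR S, ∀ k ω, TR.ev A' k ω = TR.ev A k (c k ω) :=
    ⟨⟨fun k ω => TR.ev A k (c k ω), fun _ => 1, S.Sub_const zero_le_one,
      Eventually.of_forall fun k ω _ => hA1 k (c k ω)⟩, fun _ _ => rfl⟩
  have hA'e : ExF VA A' := by
    intro k ω ω' h1 hZ
    rw [hA', hA', hc1 k ω ω' h1 hZ]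
  have hsub : ∀ k (ω : (S.F k).Ω), E2 k ω → |TR.ev (A - A') k ω| ≤ S.dl (δ / 2) k := by
    intro k ω h1
    rw [hE2d, hR] at h1
    rw [TR.ev_sub, hA']
    exact h1.2
  have hAA : QS.rest E2 hE2 (mk A - mk A') ∈ Id (S.rest E2) (δ / 2) := by
    rw [← map_sub, QS.rest_mk, mk_mem_Id (by linarith)]
    apply Ag_of_pt
    filter_upwards [rest_mem _ hE2] with k hk ω hω
    rw [TR.ev_zero, sub_zero]
    exact hsub k ω (hk ω hω).2
  -- the common function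
  obtain ⟨G, hG⟩ : ∃ G, G = (a j + t * x j) - mk A * (a i + t * x i) - mk B * t := ⟨_, rfl⟩
  obtain ⟨G', hG'⟩ : ∃ G', G' = a j - mk A' * a i := ⟨_, rfl⟩
  have hgB : G ∈ Fn VB := by
    rw [hG]
    exact (Fn VB).sub_mem ((Fn VB).sub_mem (h.hy j) ((Fn VB).mul_mem ⟨A, hA, rfl⟩ (h.hy i)))
      ((Fn VB).mul_mem ⟨B, hB, rfl⟩ h.ht)
  have hgA : G' ∈ Fn VA := by
    rw [hG']
    exact (Fn VA).sub_mem (h.ha j) ((Fn VA).mul_mem ⟨A', hA'e, rfl⟩ (h.ha i))
  have hgg : QS.rest E2 hE2 (G - G') ∈ Id (S.rest E2) (δ / 2) := by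
    have e : G - G' = t * (x j - mk A * x i - mk B) - a i * (mk A - mk A') := by
      rw [hG, hG']
      ring
    rw [e, map_sub, map_mul, map_mul]
    exact (Id _ _).sub_mem ((Id _ _).mul_mem_left _ (Id_anti (by linarith) hrel2)) ((Id _ _).mul_mem_left _ hAA)
  have hg0 := h.ag E2 hE2 G G' (δ / 2) hd2 (by linarith) hgB hgA hgg
  have hfull : 3 - η / (p0 / 2) ≤ H (dg (QS.rest E2 hE2 t) 1 ⊔
      vd (fun i => QS.rest E2 hE2 (a i + t * x i)) 1) := by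
    have h3 : ∀ (E' : ∀ k, (S.F k).Ω → Prop) (hE' : 0 < ul (S.pr E')),
        H (restL E' hE' (dg t 1 ⊔ vd (fun i => a i + t * x i) 1)) ≤ 3 := by
      intro E' hE'
      rw [restL_sup, ← QS.rest_dg, ← QS.rest_vd]
      have k1 := H_sup_le (dg (QS.rest E' hE' t) 1) (vd (fun i => QS.rest E' hE' (a i + t * x i)) 1)
      have k2 := FB.H_dg1 (QS.rest E' hE' t)
      have k3 := h_sd_le (fun i => QS.rest E' hE' (a i + t * x i)) Finset.univ ⊥
      rw [h_bot, Finset.card_univ, Fintype.card_fin] at k3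
      have k4 : H (vd (fun i => QS.rest E' hE' (a i + t * x i)) 1) ≤ 2 := by exact_mod_cast k3
      linarith
    have h1 := rest_near_max E2 hE2 h.full hη h3
    have h2 := div_le_of_mul (by linarith : 0 < p0 / 2) hhalf (sub_nonneg.mpr (h3 E2 hE2)) h1
    rw [restL_sup, ← QS.rest_dg, ← QS.rest_vd] at h2
    linarith
  have hfin := full_contra (T := S.rest E2) (t := QS.rest E2 hE2 t) (A := QS.rest E2 hE2 (mk A))
    (B := QS.rest E2 hE2 (mk B)) (G := QS.rest E2 hE2 G) (y := fun i => QS.rest E2 hE2 (a i + t * x i)) hij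
    (by linarith) (by linarith) hA2 hB2 (by
      rw [hG, map_sub, map_sub, map_mul, map_mul]) hg0 hfull
  have h5 : 6 * (η / (p0 / 2)) < δ / 2 := by
    rw [← mul_div_assoc, div_lt_iff₀ (by linarith)]
    have h6 : 0 < δ * p0 := mul_pos hδ hp0
    have h7 : g * δ * p0 ≤ δ * p0 := by
      have := mul_le_mul_of_nonneg_right hg1 h6.le
      nlinarith
    nlinarith
  linarith

/-- COLLINEAR COPIES lie on a line which is a function of the common variable, on an event; quantitative form -/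
theorem chart_q {W : Sp} {α : ℕ → Type} (V : ∀ k, (S.F k).Ω → α k) (q pi pj : Pj W S) (x : Fin 2 → QS S)
    (hu : IsUnit ((pj.qs (x 0) - pi.qs (x 0)) * (pj.qs (x 0) - pi.qs (x 0)) +
      (pj.qs (x 1) - pi.qs (x 1)) * (pj.qs (x 1) - pi.qs (x 1)))) {δ0 p0 : ℝ} (hδ1 : δ0 ≤ 1) (hp0 : 0 ≤ p0)
    (F : TR (q.join V).sp) (K0 : ℕ → ℝ) (hK0 : (q.join V).sp.Sub K0)
    (hF : mk F = (q.join V).p1.qs (pj.qs (x 0) - pi.qs (x 0)) *
        ((q.join V).p2.qs (x 1) - (q.join V).p1.qs (pi.qs (x 1))) -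
      (q.join V).p1.qs (pj.qs (x 1) - pi.qs (x 1)) *
        ((q.join V).p2.qs (x 0) - (q.join V).p1.qs (pi.qs (x 0))))
    (hpos : p0 < ul ((q.join V).sp.pr fun k w => |TR.ev F k w| ≤ K0 k * (q.join V).sp.dl δ0 k)) :
    ∃ (a b : Fin 2) (E : ∀ k, (S.F k).Ω → Prop) (hE : 0 < ul (S.pr E)) (A B : TR S),
      (∀ l, l = a ∨ l = b) ∧ p0 / 2 ≤ ul (S.pr E) ∧ ExF V A ∧ ExF V B ∧ (∀ k ω, |TR.ev A k ω| ≤ 1) ∧
      QS.rest E hE (x b - mk A * x a - mk B) ∈ Id (S.rest E) δ0 := by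
  classical
  obtain ⟨ξ, hξ⟩ : ∃ ξ : Fin 2 → TR S, ∀ l, mk (ξ l) = x l := ⟨fun l => rep (x l), fun l => mk_rep _⟩
  obtain ⟨Δ, hΔ⟩ : ∃ Δ : Fin 2 → TR W, Δ = fun l => pj.tr (ξ l) - pi.tr (ξ l) := ⟨_, rfl⟩
  have hΔm : ∀ l, mk (Δ l) = pj.qs (x l) - pi.qs (x l) := by
    intro l
    rw [hΔ, ← hξ]
    exact map_sub _ _ _
  -- bounds
  obtain ⟨K, hK, hKb⟩ : ∃ K : ℕ → ℝ, S.Sub K ∧ ∀ᶠ k in UF, ∀ ω, (S.F k).μ ω ≠ 0 → ∀ l, |TR.ev (ξ l) k ω| ≤ K k := by
    obtain ⟨K0, hK0, h0⟩ := (ξ 0).2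
    obtain ⟨K1, hK1, h1⟩ := (ξ 1).2
    refine ⟨_, hK0.add hK1, ?_⟩
    filter_upwards [h0, h1, hK0.1, hK1.1] with k a b c d ω hω l
    have e0 : |TR.ev (ξ 0) k ω| ≤ K0 k := a ω hω
    have e1 : |TR.ev (ξ 1) k ω| ≤ K1 k := b ω hω
    fin_cases l
    · show |TR.ev (ξ 0) k ω| ≤ _
      linarith
    · show |TR.ev (ξ 1) k ω| ≤ _
      linarith
  -- separation
  have hu' : IsUnit (mk (Δ 0 * Δ 0 + Δ 1 * Δ 1)) := by
    rw [map_add, map_mul, map_mul, hΔm, hΔm]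
    exact hu
  obtain ⟨K1, hK1, hT1⟩ := isUnit_mk.mp hu'
  -- smallness of the determinant
  obtain ⟨F', hF'⟩ : ∃ F' : TR (q.join V).sp, F' = (q.join V).p1.tr (Δ 0) *
      ((q.join V).p2.tr (ξ 1) - (q.join V).p1.tr (pi.tr (ξ 1))) -
      (q.join V).p1.tr (Δ 1) * ((q.join V).p2.tr (ξ 0) - (q.join V).p1.tr (pi.tr (ξ 0))) := ⟨_, rfl⟩
  have hFm : mk F = mk F' := by
    have e : mk F' = (q.join V).p1.qs (pj.qs (x 0) - pi.qs (x 0)) *
        ((q.join V).p2.qs (x 1) - (q.join V).p1.qs (pi.qs (x 1))) -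
      (q.join V).p1.qs (pj.qs (x 1) - pi.qs (x 1)) *
        ((q.join V).p2.qs (x 0) - (q.join V).p1.qs (pi.qs (x 0))) := by
      rw [hF', map_sub, map_mul, map_mul, map_sub, map_sub, ← hΔm, ← hΔm, ← hξ, ← hξ]
      rfl
    rw [hF, e]
  obtain ⟨A0, L, hA0, hL, hAL⟩ := mk_eq.mp hFm
  -- events
  obtain ⟨G, hG⟩ : ∃ G : ∀ k, (W.F k).Ω → (S.F k).Ω → Prop, G = fun k w ω =>
      (|TR.ev (Δ 0) k w * (TR.ev (ξ 1) k ω - TR.ev (ξ 1) k (pi.π k w)) -
        TR.ev (Δ 1) k w * (TR.ev (ξ 0) k ω - TR.ev (ξ 0) k (pi.π k w))| ≤ (K0 k + L k) * S.dl δ0 k) ∧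
      1 ≤ K1 k * |TR.ev (Δ 0 * Δ 0 + Δ 1 * Δ 1) k w| := ⟨_, rfl⟩
  have hdl : ∀ k r, (q.join V).sp.dl r k = S.dl r k := by
    intro k r
    unfold Sp.dl
    rw [(q.join V).p2.hn k]
  have hGpos : p0 < ul ((q.join V).sp.pr fun k w => G k w.1 w.2) := by
    refine hpos.trans_le ((ul_pr_and_typ (hA0.and ((q.join V).p1.typ hT1))).trans (ul_pr_mono ?_))
    filter_upwards [hAL, hL.1] with k hk hk0 w hw hE
    obtain ⟨h1, h2, h3⟩ := hE
    rw [hG]
    refine ⟨?_, h3⟩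
    have h4 := hk w hw h2
    have h5 := abs_sub_abs_le_abs_sub (TR.ev F' k w) (TR.ev F k w)
    rw [abs_sub_comm] at h5
    have h6 := mul_le_mul_of_nonneg_left ((q.join V).sp.dl_anti hδ1 k) hk0
    have h7 : |TR.ev F' k w| ≤ (K0 k + L k) * (q.join V).sp.dl δ0 k := by
      rw [add_mul]
      linarith
    rw [hdl, hF'] at h7
    exact h7
  have hchart : ∃ a b : Fin 2, (∀ l, l = a ∨ l = b) ∧
      p0 / 2 < ul ((q.join V).sp.pr fun k w => G k w.1 w.2 ∧ |TR.ev (Δ b) k w.1| ≤ |TR.ev (Δ a) k w.1|) := by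
    have h1 := ul_pr_or (S := (q.join V).sp) (E := fun k w => G k w.1 w.2)
      (A := fun k w => G k w.1 w.2 ∧ |TR.ev (Δ 1) k w.1| ≤ |TR.ev (Δ 0) k w.1|)
      (B := fun k w => G k w.1 w.2 ∧ |TR.ev (Δ 0) k w.1| ≤ |TR.ev (Δ 1) k w.1|) (fun k w h => by
        rcases le_total |TR.ev (Δ 1) k w.1| |TR.ev (Δ 0) k w.1| with h1 | h1
        · exact Or.inl ⟨h, h1⟩
        · exact Or.inr ⟨h, h1⟩)
    by_contra hcon
    push Not at hcon
    have h2 := hcon 0 1 (by decide)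
    have h3 := hcon 1 0 (by decide)
    linarith
  obtain ⟨a, b, hab, hpos2⟩ := hchart
  obtain ⟨c, hc1, hc2, hc3⟩ := exists_best q V
    (fun k w ω => G k w ω ∧ |TR.ev (Δ b) k w| ≤ |TR.ev (Δ a) k w|)
  have hEp : p0 / 2 < ul (S.pr fun k ω => G k (c k ω) ω ∧ |TR.ev (Δ b) k (c k ω)| ≤ |TR.ev (Δ a) k (c k ω)|) := by
    refine lt_of_lt_of_le hpos2 ?_
    exact ul_mono (UB_pr _) (UB_pr _) (Eventually.of_forall fun k => hc3 k)
  have hE : 0 < ul (S.pr fun k ω => G k (c k ω) ω ∧ |TR.ev (Δ b) k (c k ω)| ≤ |TR.ev (Δ a) k (c k ω)|) :=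
    lt_of_le_of_lt (by linarith) hEp
  -- the line
  have hAb : ∀ k (ω : (S.F k).Ω), |if |TR.ev (Δ b) k (c k ω)| ≤ |TR.ev (Δ a) k (c k ω)| then
      TR.ev (Δ b) k (c k ω) / TR.ev (Δ a) k (c k ω) else 0| ≤ 1 := by
    intro k ω
    split_ifs with h
    · rw [abs_div]
      exact div_le_one_of_le₀ h (abs_nonneg _)
    · rw [abs_zero]
      exact zero_le_one
  obtain ⟨A, hA⟩ : ∃ A : TR S, ∀ k ω, TR.ev A k ω = if |TR.ev (Δ b) k (c k ω)| ≤ |TR.ev (Δ a) k (c k ω)| then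
      TR.ev (Δ b) k (c k ω) / TR.ev (Δ a) k (c k ω) else 0 := by
    refine ⟨⟨fun k ω => if |TR.ev (Δ b) k (c k ω)| ≤ |TR.ev (Δ a) k (c k ω)| then
      TR.ev (Δ b) k (c k ω) / TR.ev (Δ a) k (c k ω) else 0, fun _ => 1, S.Sub_const zero_le_one,
      Eventually.of_forall fun k ω _ => hAb k ω⟩, fun k ω => rfl⟩
  have hA1 : ∀ k ω, |TR.ev A k ω| ≤ 1 := by
    intro k ω
    rw [hA]
    exact hAb k ω
  have hAe : ExF V A := by
    intro k ω ω' h hZ
    rw [hA, hA, hc1 k ω ω' h hZ]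
  have hBb : ∀ᶠ k in UF, ∀ ω : (S.F k).Ω, |if (W.F k).μ (c k ω) ≠ 0 then TR.ev (ξ b) k (pi.π k (c k ω)) -
      TR.ev A k ω * TR.ev (ξ a) k (pi.π k (c k ω)) else 0| ≤ K k + K k := by
    filter_upwards [hKb, hK.1] with k hk hk0 ω
    split_ifs with h
    · have h1 := hk _ (pi.supp k _ h) b
      have h2 := hk _ (pi.supp k _ h) a
      refine (abs_sub _ _).trans (add_le_add h1 ?_)
      rw [abs_mul]
      calc _ ≤ 1 * K k := mul_le_mul (hA1 k ω) h2 (abs_nonneg _) zero_le_one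
        _ = K k := one_mul _
    · rw [abs_zero]
      linarith
  obtain ⟨B, hB⟩ : ∃ B : TR S, ∀ k ω, TR.ev B k ω = if (W.F k).μ (c k ω) ≠ 0 then
      TR.ev (ξ b) k (pi.π k (c k ω)) - TR.ev A k ω * TR.ev (ξ a) k (pi.π k (c k ω)) else 0 := by
    refine ⟨⟨fun k ω => if (W.F k).μ (c k ω) ≠ 0 then
      TR.ev (ξ b) k (pi.π k (c k ω)) - TR.ev A k ω * TR.ev (ξ a) k (pi.π k (c k ω)) else 0,
      fun k => K k + K k, hK.add hK, ?_⟩, fun k ω => rfl⟩
    filter_upwards [hBb] with k hk ω _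
    exact hk ω
  have hBe : ExF V B := by
    intro k ω ω' h hZ
    rw [hB, hB, hAe k ω ω' h hZ, hc1 k ω ω' h hZ]
  have hpt : ∀ k, 0 ≤ K1 k → ∀ ω : (S.F k).Ω, (S.F k).μ ω ≠ 0 → (G k (c k ω) ω ∧
      |TR.ev (Δ b) k (c k ω)| ≤ |TR.ev (Δ a) k (c k ω)|) →
      |TR.ev (ξ b) k ω - TR.ev A k ω * TR.ev (ξ a) k ω - TR.ev B k ω| ≤
        ((2 * K1 k + 1) * (K0 k + L k)) * S.dl δ0 k := by
    intro k hk1 ω hs hR
    obtain ⟨hR1, hR2⟩ := hR
    rw [hG] at hR1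
    obtain ⟨hR3, hR4⟩ := hR1
    have hW := (hc2 k ω hs).1
    rw [hB, if_pos hW, hA, if_pos hR2]
    obtain ⟨u, hu0⟩ : ∃ u, u = TR.ev (Δ a) k (c k ω) := ⟨_, rfl⟩
    obtain ⟨v, hv0⟩ : ∃ v, v = TR.ev (Δ b) k (c k ω) := ⟨_, rfl⟩
    have hsum : |TR.ev (Δ 0 * Δ 0 + Δ 1 * Δ 1) k (c k ω)| = |u * u + v * v| := by
      rw [TR.ev_add, TR.ev_mul, TR.ev_mul, hu0, hv0]
      rcases hab 0 with h | h
      · rcases hab 1 with h' | h'
        · rw [← h] at h'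
          exact absurd h' (by decide)
        · rw [← h, ← h']
      · rcases hab 1 with h' | h'
        · rw [← h, ← h']
          congr 1
          ring
        · rw [← h] at h'
          exact absurd h' (by decide)
    have hdt : |TR.ev (Δ 0) k (c k ω) * (TR.ev (ξ 1) k ω - TR.ev (ξ 1) k (pi.π k (c k ω))) -
        TR.ev (Δ 1) k (c k ω) * (TR.ev (ξ 0) k ω - TR.ev (ξ 0) k (pi.π k (c k ω)))| =
        |u * (TR.ev (ξ b) k ω - TR.ev (ξ b) k (pi.π k (c k ω))) -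
          v * (TR.ev (ξ a) k ω - TR.ev (ξ a) k (pi.π k (c k ω)))| := by
      rw [hu0, hv0]
      rcases hab 0 with h | h
      · rcases hab 1 with h' | h'
        · rw [← h] at h'
          exact absurd h' (by decide)
        · rw [← h, ← h']
      · rcases hab 1 with h' | h'
        · rw [← h, ← h', ← abs_neg]
          congr 1
          ring
        · rw [← h] at h'
          exact absurd h' (by decide)
    rw [hsum] at hR4
    rw [hdt] at hR3
    rw [← hu0, ← hv0] at hR2 ⊢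
    have h5 := aux_unit hk1 hR4 hR2
    have hu1 : 0 < |u| := by
      by_contra hc
      have : |u| = 0 := le_antisymm (not_lt.mp hc) (abs_nonneg _)
      rw [this, mul_zero] at h5
      linarith
    have hune : u ≠ 0 := abs_pos.mp hu1
    obtain ⟨X, hX⟩ : ∃ X, X = TR.ev (ξ b) k ω - v / u * TR.ev (ξ a) k ω - (TR.ev (ξ b) k (pi.π k (c k ω)) -
        v / u * TR.ev (ξ a) k (pi.π k (c k ω))) := ⟨_, rfl⟩
    have hX2 : u * X = u * (TR.ev (ξ b) k ω - TR.ev (ξ b) k (pi.π k (c k ω))) -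
          v * (TR.ev (ξ a) k ω - TR.ev (ξ a) k (pi.π k (c k ω))) := by
      rw [hX]
      field_simp
      ring
    rw [← hX2, abs_mul] at hR3
    have h7 : |X| ≤ ((2 * K1 k + 1) * |u|) * |X| := by
      nlinarith [abs_nonneg X]
    rw [← hX]
    calc |X| ≤ ((2 * K1 k + 1) * |u|) * |X| := h7
      _ = (2 * K1 k + 1) * (|u| * |X|) := by ring
      _ ≤ (2 * K1 k + 1) * ((K0 k + L k) * S.dl δ0 k) := mul_le_mul_of_nonneg_left hR3 (by linarith)
      _ = _ := by ring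
  refine ⟨a, b, _, hE, A, B, hab, hEp.le, hAe, hBe, hA1, ?_⟩
  have e1 : x b - mk A * x a - mk B = mk (ξ b - A * ξ a - B) := by
    rw [map_sub, map_sub, map_mul, hξ, hξ]
  rw [e1, QS.rest_mk, mk_mem_Id hδ1]
  have hKS : S.Sub (fun k => (2 * K1 k + 1) * (K0 k + L k)) := by
    have h1 := sub_down q hK1
    have h2 := (h1.add h1).add (S.Sub_const zero_le_one)
    have h3 : (fun k => K1 k + K1 k + 1) = fun k => 2 * K1 k + 1 := by
      funext k
      ring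
    rw [h3] at h2
    exact h2.mul (sub_down (q.join V).p2 (hK0.add hL))
  refine ⟨fun _ _ => True, fun k => (2 * K1 k + 1) * (K0 k + L k), Typ_true, hKS, ?_⟩
  filter_upwards [rest_mem _ hE, hK1.1] with k hk hk1 ω hω _
  obtain ⟨hs, hR⟩ := hk ω hω
  rw [TR.ev_zero, sub_zero]
  exact hpt k hk1 ω hs hR

end

end Pool.Agent.Helper24.T3
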