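import Pool.Agent.Helper25.EC.AL

/-! Choice of the best configuration over a common variable: a relation between a configuration and a new copy over
`V` holds, with at least the same probability, between a function of `V` and the copy. -/

set_option autoImplicit false

namespace Pool.Agent.Helper24.T3

open Finset Filter Topology Pool.Agent.Helper69.RK Pool.Agent.Helper31.EC Pool.Agent.Helper31.EC.Sp
open Pool.Agent.Helper25.EC

noncomputable section

open Classical in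
/-- finite form -/
theorem choice_fin {Ω Ω' α : Type} [Fintype Ω] [Fintype Ω'] (μ : Ω → ℝ) (μ' : Ω' → ℝ) (h0 : ∀ ω, 0 ≤ μ ω)
    (h0' : ∀ ω, 0 ≤ μ' ω) (f : Ω → α) (g : Ω' → α) (hl : ∀ a, ms μ f a = ms μ' g a) (y0 : Ω)
    (R : Ω → Ω' → Prop) :
    ∃ c : Ω' → Ω, (∀ x x', g x = g x' → c x = c x') ∧ (∀ x, μ' x ≠ 0 → μ (c x) ≠ 0 ∧ f (c x) = g x) ∧
      ∑ w : Ω × Ω', e1_ind (R w.1 w.2) * amw μ μ' f g w ≤ ∑ x, e1_ind (R (c x) x) * μ' x := by
  obtain ⟨Q, hQ⟩ : ∃ Q : α → Ω → ℝ, ∀ a y, Q a y = ∑ x, e1_ind (g x = a) * (e1_ind (R y x) * μ' x) :=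
    ⟨_, fun _ _ => rfl⟩
  have key : ∀ a : α, ∃ y : Ω, ((∃ y', f y' = a ∧ μ y' ≠ 0) → f y = a ∧ μ y ≠ 0) ∧
      ∀ y', f y' = a → μ y' ≠ 0 → Q a y' ≤ Q a y := by
    intro a
    by_cases h : ∃ y', f y' = a ∧ μ y' ≠ 0
    · obtain ⟨y1, h1⟩ := h
      obtain ⟨y, hy, hmax⟩ := Finset.exists_max_image (Finset.univ.filter fun y => f y = a ∧ μ y ≠ 0) (Q a)
        ⟨y1, by rw [Finset.mem_filter]; exact ⟨Finset.mem_univ _, h1⟩⟩
      rw [Finset.mem_filter] at hy
      exact ⟨y, fun _ => hy.2, fun y' a1 a2 => hmax y' (by rw [Finset.mem_filter]; exact ⟨Finset.mem_univ _, a1, a2⟩)⟩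
    · exact ⟨y0, fun h' => absurd h' h, fun y' a1 a2 => absurd ⟨y', a1, a2⟩ h⟩
  choose cα hc1 hc2 using key
  have hms : ∀ x, μ' x ≠ 0 → ∃ y', f y' = g x ∧ μ y' ≠ 0 := by
    intro x hx
    have h1 : 0 < ms μ f (g x) := by
      rw [hl]
      exact ms_pos μ' g h0' x hx
    by_contra hc
    push Not at hc
    have h2 : ms μ f (g x) = 0 := by
      unfold ms
      apply Finset.sum_eq_zero
      intro y _
      by_cases hy : f y = g x
      · rw [hc y hy, mul_zero]
      · rw [e1_ind_neg hy, zero_mul]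
    linarith
  refine ⟨fun x => cα (g x), fun x x' h => by beta_reduce; rw [h], fun x hx => ?_, ?_⟩
  · exact ⟨(hc1 (g x) (hms x hx)).2, (hc1 (g x) (hms x hx)).1⟩
  · have e1 : ∀ y x, e1_ind (R y x) * amw μ μ' f g (y, x) =
        (μ y / ms μ f (f y)) * (e1_ind (g x = f y) * (e1_ind (R y x) * μ' x)) := by
      intro y x
      unfold amw
      have : e1_ind (f y = g x) = e1_ind (g x = f y) := ind_congr ⟨Eq.symm, Eq.symm⟩
      show e1_ind (R y x) * (e1_ind (f y = g x) * (μ y * μ' x / ms μ f (f y))) = _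
      rw [this]
      ring
    have e2 : ∑ w : Ω × Ω', e1_ind (R w.1 w.2) * amw μ μ' f g w = ∑ y, (μ y / ms μ f (f y)) * Q (f y) y := by
      rw [Fintype.sum_prod_type]
      apply Finset.sum_congr rfl
      intro y _
      rw [hQ, Finset.mul_sum]
      exact Finset.sum_congr rfl fun x _ => e1 y x
    have e3 : ∑ y, (μ y / ms μ f (f y)) * Q (f y) y ≤ ∑ y, (μ y / ms μ f (f y)) * Q (f y) (cα (f y)) := by
      apply Finset.sum_le_sum
      intro y _
      by_cases hy : μ y = 0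
      · rw [hy]; simp
      · exact mul_le_mul_of_nonneg_left (hc2 (f y) y rfl hy) (div_nonneg (h0 y) (ms_nonneg μ f h0 _))
    have e4 : ∑ y, (μ y / ms μ f (f y)) * Q (f y) (cα (f y)) =
        ∑ x, (∑ y, e1_ind (f y = g x) * μ y / ms μ f (g x)) * (e1_ind (R (cα (g x)) x) * μ' x) := by
      have h1 : ∀ y, (μ y / ms μ f (f y)) * Q (f y) (cα (f y)) =
          ∑ x, (e1_ind (f y = g x) * μ y / ms μ f (g x)) * (e1_ind (R (cα (g x)) x) * μ' x) := by
        intro y
        rw [hQ, Finset.mul_sum]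
        apply Finset.sum_congr rfl
        intro x _
        by_cases h : f y = g x
        · rw [e1_ind_pos h, e1_ind_pos h.symm, h]
          ring
        · rw [e1_ind_neg h, e1_ind_neg fun h' => h h'.symm]
          ring
      rw [Finset.sum_congr rfl fun y _ => h1 y, Finset.sum_comm]
      apply Finset.sum_congr rfl
      intro x _
      rw [Finset.sum_mul]
    rw [e2]
    refine e3.trans ?_
    rw [e4]
    apply Finset.sum_le_sum
    intro x _
    have h5 : ∑ y, e1_ind (f y = g x) * μ y / ms μ f (g x) ≤ 1 := by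
      rw [← Finset.sum_div]
      exact div_self_le_one _
    have h6 : 0 ≤ e1_ind (R (cα (g x)) x) * μ' x := mul_nonneg (ind_nonneg _) (h0' x)
    calc _ ≤ 1 * (e1_ind (R (cα (g x)) x) * μ' x) := mul_le_mul_of_nonneg_right h5 h6
      _ = _ := one_mul _

theorem exists_pt (F : FSp) : ∃ ω : F.Ω, F.μ ω ≠ 0 := by
  by_contra hc
  push Not at hc
  have h1 := F.ms
  have h2 : mass F.μ = 0 := Finset.sum_eq_zero fun ω _ => hc ω
  rw [h2] at h1
  exact zero_ne_one h1

variable {W S : Sp} {α : ℕ → Type}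

/-- BEST CONFIGURATION as a function of the common variable -/
theorem exists_best (q : Pj W S) (V : ∀ k, (S.F k).Ω → α k) (R : ∀ k, (W.F k).Ω → (S.F k).Ω → Prop) :
    ∃ c : ∀ k, (S.F k).Ω → (W.F k).Ω,
      (∀ k ω ω', V k ω = V k ω' → (S.F k).Z ω ω' → c k ω = c k ω') ∧
      (∀ k ω, (S.F k).μ ω ≠ 0 → (W.F k).μ (c k ω) ≠ 0 ∧ V k (q.π k (c k ω)) = V k ω ∧
        (S.F k).Z (q.π k (c k ω)) ω) ∧
      ∀ k, ((q.join V).sp.F k).pb (fun w => R k w.1 w.2) ≤ (S.F k).pb (fun ω => R k (c k ω) ω) := by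
  choose y0 hy0 using fun k => exists_pt (W.F k)
  choose c hc1 hc2 hc3 using fun k => choice_fin (W.F k).μ (S.F k).μ (W.F k).nn (S.F k).nn
    ((q.join V).f k) ((q.join V).g k) ((q.join V).law k) (y0 k) (R k)
  refine ⟨c, fun k ω ω' h hZ => ?_, fun k ω hω => ?_, fun k => ?_⟩
  · apply hc1 k ω ω'
    show (V k ω, Quotient.mk (S.F k).Z ω) = (V k ω', Quotient.mk (S.F k).Z ω')
    rw [h, Quotient.sound hZ]
  · obtain ⟨h1, h2⟩ := hc2 k ω hω
    have h3 : (V k (q.π k (c k ω)), Quotient.mk (S.F k).Z (q.π k (c k ω))) = (V k ω, Quotient.mk (S.F k).Z ω) := h2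
    rw [Prod.mk.injEq] at h3
    exact ⟨h1, h3.1, Quotient.exact h3.2⟩
  · have h1 := hc3 k
    unfold FSp.pb
    rw [mass_res_ind, mass_res_ind]
    exact h1

end

end Pool.Agent.Helper24.T3
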