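import Pool.Agent.Helper24.T3.Cho
import Pool.Agent.Helper31.EC.Uns

/-! Exact functions of a variable; a new copy which is collinear with two old copies on an event of positive
probability lies, on an event, on a line which is a function of the common variable. -/

set_option autoImplicit false

namespace Pool.Agent.Helper24.T3

open Finset Filter Topology Pool.Agent.Helper69.RK Pool.Agent.Helper31.EC Pool.Agent.Helper31.EC.Sp
open Pool.Agent.Helper25.EC QS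

noncomputable section

variable {S : Sp}

/-- literal functions of the variable `V` (and of the base) -/
def ExF {α : ℕ → Type} (V : ∀ k, (S.F k).Ω → α k) (g : TR S) : Prop :=
  ∀ k ω ω', V k ω = V k ω' → (S.F k).Z ω ω' → TR.ev g k ω = TR.ev g k ω'

/-- functions to full precision which have a representative that is a literal function of `V` -/
def Fn {α : ℕ → Type} (V : ∀ k, (S.F k).Ω → α k) : Subring (QS S) where
  carrier := {f | ∃ g : TR S, ExF V g ∧ mk g = f}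
  mul_mem' := by
    rintro f f' ⟨g, hg, rfl⟩ ⟨g', hg', rfl⟩
    refine ⟨g * g', fun k ω ω' h hZ => ?_, map_mul _ _ _⟩
    rw [TR.ev_mul, TR.ev_mul, hg k ω ω' h hZ, hg' k ω ω' h hZ]
  one_mem' := ⟨1, fun _ _ _ _ _ => rfl, map_one _⟩
  add_mem' := by
    rintro f f' ⟨g, hg, rfl⟩ ⟨g', hg', rfl⟩
    refine ⟨g + g', fun k ω ω' h hZ => ?_, map_add _ _ _⟩
    rw [TR.ev_add, TR.ev_add, hg k ω ω' h hZ, hg' k ω ω' h hZ]
  zero_mem' := ⟨0, fun _ _ _ _ _ => rfl, map_zero _⟩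
  neg_mem' := by
    rintro f ⟨g, hg, rfl⟩
    refine ⟨-g, fun k ω ω' h hZ => ?_, map_neg _ _⟩
    rw [TR.ev_neg, TR.ev_neg, hg k ω ω' h hZ]

theorem mem_Fn {α : ℕ → Type} {V : ∀ k, (S.F k).Ω → α k} {f : QS S} : f ∈ Fn V ↔ ∃ g : TR S, ExF V g ∧ mk g = f :=
  Iff.rfl

/-- exact functions are known -/
theorem Fn_dg {α : ℕ → Type} {V : ∀ k, (S.F k).Ω → α k} (hV : Bdd V) {f : QS S} (hf : f ∈ Fn V) {r : ℝ} (hr : r ≤ 1) :
    dg f r ≤ io V := by
  obtain ⟨g, hg, rfl⟩ := hf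
  rw [dg_mk _ hr]
  apply (TR.vec fun _ : Fin 1 => g).dg_le_io r hV (fun _ _ => True) Typ_true (fun _ => 1) (S.Sub_const zero_le_one)
  refine Eventually.of_forall fun k ω ω' _ _ _ _ hZ hVV i => ?_
  have h1 : TR.ev g k ω = TR.ev g k ω' := hg k ω ω' hVV hZ
  show |TR.ev g k ω - TR.ev g k ω'| ≤ _
  rw [h1, sub_self, abs_zero, one_mul]
  exact (S.dl_pos r k).le

/-- a function which is not a unit is small on an event of positive probability, pointwise -/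
theorem not_unit_event (F : TR S) (h : ¬ IsUnit (mk F)) :
    ∃ δ : ℝ, 0 < δ ∧ 0 < ul (S.pr fun k ω => ¬ S.dl δ k ≤ |TR.ev F k ω|) := by
  rw [isUnit_mk] at h
  have h1 : ¬ ∀ δ : ℝ, 0 < δ → Typ (fun k ω => S.dl δ k ≤ |TR.ev F k ω|) := fun h' => h (nd_of_levels h')
  push Not at h1
  obtain ⟨δ, hδ, h2⟩ := h1
  refine ⟨δ, hδ, ?_⟩
  rcases typ_or (fun k ω => S.dl δ k ≤ |TR.ev F k ω|) with h3 | h3
  · exact absurd h3 h2
  · exact h3

/-- positive events: intersection with typical ones, finite covers -/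
theorem pos_and {E A : ∀ k, (S.F k).Ω → Prop} (hE : 0 < ul (S.pr E)) (hA : Typ A) :
    0 < ul (S.pr fun k ω => E k ω ∧ A k ω) := by
  by_contra hc
  have h1 := (typ_not hc).and hA
  have h2 : Typ (S := S) (fun k ω => ¬ E k ω) := h1.mono (Eventually.of_forall fun k ω _ h he => h.1 ⟨he, h.2⟩)
  have h3 := ul_pr_compl E
  rw [ul_pr_typ _ h2] at h3
  linarith

theorem pos_or {E A B : ∀ k, (S.F k).Ω → Prop} (hE : 0 < ul (S.pr E)) (h : ∀ k ω, E k ω → A k ω ∨ B k ω) :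
    0 < ul (S.pr A) ∨ 0 < ul (S.pr B) := by
  by_contra hc
  push Not at hc
  have h1 := (typ_not (not_lt.mpr hc.1)).and (typ_not (not_lt.mpr hc.2))
  have h2 : Typ (S := S) (fun k ω => ¬ E k ω) := h1.mono (Eventually.of_forall fun k ω _ h' he => by
    rcases h k ω he with h3 | h3
    · exact h'.1 h3
    · exact h'.2 h3)
  have h3 := ul_pr_compl E
  rw [ul_pr_typ _ h2] at h3
  linarith

theorem aux_unit {K x y : ℝ} (hK : 0 ≤ K) (h : 1 ≤ K * |x * x + y * y|) (hxy : |y| ≤ |x|) : 1 ≤ (2 * K + 1) * |x| := by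
  have h1 : |x * x + y * y| ≤ 2 * (|x| * |x|) := by
    rw [abs_of_nonneg (by nlinarith [sq_nonneg x, sq_nonneg y])]
    have h2 := mul_le_mul hxy hxy (abs_nonneg y) (abs_nonneg x)
    have h3 := abs_mul_abs_self x
    have h4 := abs_mul_abs_self y
    nlinarith
  have h2 : 1 ≤ K * (2 * (|x| * |x|)) := h.trans (mul_le_mul_of_nonneg_left h1 hK)
  rcases le_total 1 |x| with h3 | h3
  · nlinarith
  · have h4 : |x| * |x| ≤ |x| := by nlinarith [abs_nonneg x]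
    nlinarith [abs_nonneg x]

theorem sub_down {W : Sp} (q : Pj W S) {K : ℕ → ℝ} (h : W.Sub K) : S.Sub K := by
  refine ⟨h.1, ?_⟩
  have h1 : (fun k => Real.logb 2 (K k + 2) / (S.F k).n) = fun k => Real.logb 2 (K k + 2) / (W.F k).n := by
    funext k
    rw [q.hn k]
  rw [h1]
  exact h.2

/-- COLLINEAR COPIES lie on a line which is a function of the common variable, on an event of positive probability -/
theorem exists_chart {W : Sp} {α : ℕ → Type} (V : ∀ k, (S.F k).Ω → α k) (q pi pj : Pj W S) (x : Fin 2 → QS S)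
    (hu : IsUnit ((pj.qs (x 0) - pi.qs (x 0)) * (pj.qs (x 0) - pi.qs (x 0)) +
      (pj.qs (x 1) - pi.qs (x 1)) * (pj.qs (x 1) - pi.qs (x 1))))
    (hdet : ¬ IsUnit ((q.join V).p1.qs (pj.qs (x 0) - pi.qs (x 0)) *
        ((q.join V).p2.qs (x 1) - (q.join V).p1.qs (pi.qs (x 1))) -
      (q.join V).p1.qs (pj.qs (x 1) - pi.qs (x 1)) *
        ((q.join V).p2.qs (x 0) - (q.join V).p1.qs (pi.qs (x 0))))) :
    ∃ (a b : Fin 2) (δ : ℝ) (E : ∀ k, (S.F k).Ω → Prop) (hE : 0 < ul (S.pr E)) (A B : TR S) (L : ℕ → ℝ),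
      (∀ l, l = a ∨ l = b) ∧ 0 < δ ∧ δ ≤ 1 ∧ ExF V A ∧ ExF V B ∧ (∀ k ω, |TR.ev A k ω| ≤ 1) ∧ S.Sub L ∧
      (∀ᶠ k in UF, ∀ ω, |TR.ev B k ω| ≤ L k) ∧
      QS.rest E hE (x b - mk A * x a - mk B) ∈ Id (S.rest E) δ := by
  classical
  obtain ⟨D, hD⟩ : ∃ D, D = q.join V := ⟨_, rfl⟩
  obtain ⟨ξ, hξ⟩ : ∃ ξ : Fin 2 → TR S, ∀ l, mk (ξ l) = x l := ⟨fun l => rep (x l), fun l => mk_rep _⟩
  obtain ⟨Δ, hΔ⟩ : ∃ Δ : Fin 2 → TR W, Δ = fun l => pj.tr (ξ l) - pi.tr (ξ l) := ⟨_, rfl⟩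
  have hΔm : ∀ l, mk (Δ l) = pj.qs (x l) - pi.qs (x l) := by
    intro l
    rw [hΔ, ← hξ]
    exact map_sub _ _ _
  -- bounds
  obtain ⟨K, hK, hKb⟩ : ∃ K : ℕ → ℝ, S.Sub K ∧ ∀ᶠ k in UF, ∀ ω, (S.F k).μ ω ≠ 0 → ∀ l, |TR.ev (ξ l) k ω| ≤ K k := by
    obtain ⟨K0, hK0, h0⟩ := (ξ 0).2
    obtain ⟨K1, hK1, h1⟩ := (ξ 1).2
    refine ⟨_, hK0.add hK1, ?_⟩
    filter_upwards [h0, h1, hK0.1, hK1.1] with k a b c d ω hω l
    have e0 : |TR.ev (ξ 0) k ω| ≤ K0 k := a ω hω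
    have e1 : |TR.ev (ξ 1) k ω| ≤ K1 k := b ω hω
    fin_cases l
    · show |TR.ev (ξ 0) k ω| ≤ _
      linarith
    · show |TR.ev (ξ 1) k ω| ≤ _
      linarith
  -- separation
  have hu' : IsUnit (mk (Δ 0 * Δ 0 + Δ 1 * Δ 1)) := by
    rw [map_add, map_mul, map_mul, hΔm, hΔm]
    exact hu
  obtain ⟨K1, hK1, hT1⟩ := isUnit_mk.mp hu'
  -- smallness of the determinant
  obtain ⟨F, hF⟩ : ∃ F : TR (q.join V).sp, F = (q.join V).p1.tr (Δ 0) *
      ((q.join V).p2.tr (ξ 1) - (q.join V).p1.tr (pi.tr (ξ 1))) -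
      (q.join V).p1.tr (Δ 1) * ((q.join V).p2.tr (ξ 0) - (q.join V).p1.tr (pi.tr (ξ 0))) := ⟨_, rfl⟩
  have hFm : ¬ IsUnit (mk F) := by
    intro h
    apply hdet
    have e : mk F = (q.join V).p1.qs (pj.qs (x 0) - pi.qs (x 0)) *
        ((q.join V).p2.qs (x 1) - (q.join V).p1.qs (pi.qs (x 1))) -
      (q.join V).p1.qs (pj.qs (x 1) - pi.qs (x 1)) *
        ((q.join V).p2.qs (x 0) - (q.join V).p1.qs (pi.qs (x 0))) := by
      rw [hF, map_sub, map_mul, map_mul, map_sub, map_sub, ← hΔm, ← hΔm, ← hξ, ← hξ]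
      rfl
    rw [← e]
    exact h
  obtain ⟨δ0, hδ0, hpos⟩ := not_unit_event F hFm
  -- events
  obtain ⟨G, hG⟩ : ∃ G : ∀ k, (W.F k).Ω → (S.F k).Ω → Prop, G = fun k w ω =>
      (¬ S.dl δ0 k ≤ |TR.ev (Δ 0) k w * (TR.ev (ξ 1) k ω - TR.ev (ξ 1) k (pi.π k w)) -
        TR.ev (Δ 1) k w * (TR.ev (ξ 0) k ω - TR.ev (ξ 0) k (pi.π k w))|) ∧
      1 ≤ K1 k * |TR.ev (Δ 0 * Δ 0 + Δ 1 * Δ 1) k w| := ⟨_, rfl⟩
  have hGpos : 0 < ul ((q.join V).sp.pr fun k w => G k w.1 w.2) := by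
    have h1 := pos_and hpos ((q.join V).p1.typ hT1)
    have h2 : (fun (k : ℕ) (w : ((q.join V).sp.F k).Ω) => (¬ (q.join V).sp.dl δ0 k ≤ |TR.ev F k w|) ∧
        1 ≤ K1 k * |TR.ev (Δ 0 * Δ 0 + Δ 1 * Δ 1) k ((q.join V).p1.π k w)|) = fun k w => G k w.1 w.2 := by
      rw [hG, hF]
      funext k w
      have h3 : (q.join V).sp.dl δ0 k = S.dl δ0 k := by
        unfold Sp.dl
        rw [(q.join V).p2.hn k]
      rw [h3]
      rfl
    rw [h2] at h1
    exact h1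
  have hchart : ∃ a b : Fin 2, (∀ l, l = a ∨ l = b) ∧
      0 < ul ((q.join V).sp.pr fun k w => G k w.1 w.2 ∧ |TR.ev (Δ b) k w.1| ≤ |TR.ev (Δ a) k w.1|) := by
    rcases pos_or (S := (q.join V).sp) (A := fun k w => G k w.1 w.2 ∧ |TR.ev (Δ 1) k w.1| ≤ |TR.ev (Δ 0) k w.1|)
      (B := fun k w => G k w.1 w.2 ∧ |TR.ev (Δ 0) k w.1| ≤ |TR.ev (Δ 1) k w.1|) hGpos (fun k w h => by
        rcases le_total |TR.ev (Δ 1) k w.1| |TR.ev (Δ 0) k w.1| with h1 | h1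
        · exact Or.inl ⟨h, h1⟩
        · exact Or.inr ⟨h, h1⟩) with h | h
    · exact ⟨0, 1, by decide, h⟩
    · exact ⟨1, 0, by decide, h⟩
  obtain ⟨a, b, hab, hpos2⟩ := hchart
  obtain ⟨c, hc1, hc2, hc3⟩ := exists_best q V
    (fun k w ω => G k w ω ∧ |TR.ev (Δ b) k w| ≤ |TR.ev (Δ a) k w|)
  have hE : 0 < ul (S.pr fun k ω => G k (c k ω) ω ∧ |TR.ev (Δ b) k (c k ω)| ≤ |TR.ev (Δ a) k (c k ω)|) := by
    refine lt_of_lt_of_le hpos2 ?_
    exact ul_mono (UB_pr _) (UB_pr _) (Eventually.of_forall fun k => hc3 k)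
  -- the line
  have hAb : ∀ k (ω : (S.F k).Ω), |if |TR.ev (Δ b) k (c k ω)| ≤ |TR.ev (Δ a) k (c k ω)| then
      TR.ev (Δ b) k (c k ω) / TR.ev (Δ a) k (c k ω) else 0| ≤ 1 := by
    intro k ω
    split_ifs with h
    · rw [abs_div]
      exact div_le_one_of_le₀ h (abs_nonneg _)
    · rw [abs_zero]
      exact zero_le_one
  obtain ⟨A, hA⟩ : ∃ A : TR S, ∀ k ω, TR.ev A k ω = if |TR.ev (Δ b) k (c k ω)| ≤ |TR.ev (Δ a) k (c k ω)| then
      TR.ev (Δ b) k (c k ω) / TR.ev (Δ a) k (c k ω) else 0 := by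
    refine ⟨⟨fun k ω => if |TR.ev (Δ b) k (c k ω)| ≤ |TR.ev (Δ a) k (c k ω)| then
      TR.ev (Δ b) k (c k ω) / TR.ev (Δ a) k (c k ω) else 0, fun _ => 1, S.Sub_const zero_le_one,
      Eventually.of_forall fun k ω _ => hAb k ω⟩, fun k ω => rfl⟩
  have hA1 : ∀ k ω, |TR.ev A k ω| ≤ 1 := by
    intro k ω
    rw [hA]
    exact hAb k ω
  have hAe : ExF V A := by
    intro k ω ω' h hZ
    rw [hA, hA, hc1 k ω ω' h hZ]
  have hBb : ∀ᶠ k in UF, ∀ ω : (S.F k).Ω, |if (W.F k).μ (c k ω) ≠ 0 then TR.ev (ξ b) k (pi.π k (c k ω)) -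
      TR.ev A k ω * TR.ev (ξ a) k (pi.π k (c k ω)) else 0| ≤ K k + K k := by
    filter_upwards [hKb, hK.1] with k hk hk0 ω
    split_ifs with h
    · have h1 := hk _ (pi.supp k _ h) b
      have h2 := hk _ (pi.supp k _ h) a
      refine (abs_sub _ _).trans (add_le_add h1 ?_)
      rw [abs_mul]
      calc _ ≤ 1 * K k := mul_le_mul (hA1 k ω) h2 (abs_nonneg _) zero_le_one
        _ = K k := one_mul _
    · rw [abs_zero]
      linarith
  obtain ⟨B, hB⟩ : ∃ B : TR S, ∀ k ω, TR.ev B k ω = if (W.F k).μ (c k ω) ≠ 0 then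
      TR.ev (ξ b) k (pi.π k (c k ω)) - TR.ev A k ω * TR.ev (ξ a) k (pi.π k (c k ω)) else 0 := by
    refine ⟨⟨fun k ω => if (W.F k).μ (c k ω) ≠ 0 then
      TR.ev (ξ b) k (pi.π k (c k ω)) - TR.ev A k ω * TR.ev (ξ a) k (pi.π k (c k ω)) else 0,
      fun k => K k + K k, hK.add hK, ?_⟩, fun k ω => rfl⟩
    filter_upwards [hBb] with k hk ω _
    exact hk ω
  have hBe : ExF V B := by
    intro k ω ω' h hZ
    rw [hB, hB, hAe k ω ω' h hZ, hc1 k ω ω' h hZ]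
  have hpt : ∀ k, 0 ≤ K1 k → ∀ ω : (S.F k).Ω, (S.F k).μ ω ≠ 0 → (G k (c k ω) ω ∧
      |TR.ev (Δ b) k (c k ω)| ≤ |TR.ev (Δ a) k (c k ω)|) →
      |TR.ev (ξ b) k ω - TR.ev A k ω * TR.ev (ξ a) k ω - TR.ev B k ω| ≤ (2 * K1 k + 1) * S.dl (min δ0 1) k := by
    intro k hk1 ω hs hR
    obtain ⟨hR1, hR2⟩ := hR
    rw [hG] at hR1
    obtain ⟨hR3, hR4⟩ := hR1
    rw [not_le] at hR3
    have hW := (hc2 k ω hs).1
    rw [hB, if_pos hW, hA, if_pos hR2]
    obtain ⟨u, hu0⟩ : ∃ u, u = TR.ev (Δ a) k (c k ω) := ⟨_, rfl⟩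
    obtain ⟨v, hv0⟩ : ∃ v, v = TR.ev (Δ b) k (c k ω) := ⟨_, rfl⟩
    have hsum : |TR.ev (Δ 0 * Δ 0 + Δ 1 * Δ 1) k (c k ω)| = |u * u + v * v| := by
      rw [TR.ev_add, TR.ev_mul, TR.ev_mul, hu0, hv0]
      rcases hab 0 with h | h
      · rcases hab 1 with h' | h'
        · rw [← h] at h'
          exact absurd h' (by decide)
        · rw [← h, ← h']
      · rcases hab 1 with h' | h'
        · rw [← h, ← h']
          congr 1
          ring
        · rw [← h] at h'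
          exact absurd h' (by decide)
    have hdt : |TR.ev (Δ 0) k (c k ω) * (TR.ev (ξ 1) k ω - TR.ev (ξ 1) k (pi.π k (c k ω))) -
        TR.ev (Δ 1) k (c k ω) * (TR.ev (ξ 0) k ω - TR.ev (ξ 0) k (pi.π k (c k ω)))| =
        |u * (TR.ev (ξ b) k ω - TR.ev (ξ b) k (pi.π k (c k ω))) -
          v * (TR.ev (ξ a) k ω - TR.ev (ξ a) k (pi.π k (c k ω)))| := by
      rw [hu0, hv0]
      rcases hab 0 with h | h
      · rcases hab 1 with h' | h'
        · rw [← h] at h'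
          exact absurd h' (by decide)
        · rw [← h, ← h']
      · rcases hab 1 with h' | h'
        · rw [← h, ← h', ← abs_neg]
          congr 1
          ring
        · rw [← h] at h'
          exact absurd h' (by decide)
    rw [hsum] at hR4
    rw [hdt] at hR3
    rw [← hu0, ← hv0] at hR2 ⊢
    have h5 := aux_unit hk1 hR4 hR2
    have hu1 : 0 < |u| := by
      by_contra hc
      have : |u| = 0 := le_antisymm (not_lt.mp hc) (abs_nonneg _)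
      rw [this, mul_zero] at h5
      linarith
    have hune : u ≠ 0 := abs_pos.mp hu1
    obtain ⟨X, hX⟩ : ∃ X, X = TR.ev (ξ b) k ω - v / u * TR.ev (ξ a) k ω - (TR.ev (ξ b) k (pi.π k (c k ω)) -
        v / u * TR.ev (ξ a) k (pi.π k (c k ω))) := ⟨_, rfl⟩
    have hX2 : u * X = u * (TR.ev (ξ b) k ω - TR.ev (ξ b) k (pi.π k (c k ω))) -
          v * (TR.ev (ξ a) k ω - TR.ev (ξ a) k (pi.π k (c k ω))) := by
      rw [hX]
      field_simp
      ring
    rw [← hX2, abs_mul] at hR3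
    have h6 : |X| ≤ (2 * K1 k + 1) * S.dl δ0 k := by
      have h7 : |X| ≤ ((2 * K1 k + 1) * |u|) * |X| := by
        nlinarith [abs_nonneg X]
      calc |X| ≤ ((2 * K1 k + 1) * |u|) * |X| := h7
        _ = (2 * K1 k + 1) * (|u| * |X|) := by ring
        _ ≤ (2 * K1 k + 1) * S.dl δ0 k := mul_le_mul_of_nonneg_left hR3.le (by linarith)
    rw [← hX]
    refine h6.trans (mul_le_mul_of_nonneg_left (S.dl_anti (min_le_left _ _) k) (by linarith))

  refine ⟨a, b, min δ0 1, _, hE, A, B, fun k => K k + K k, hab, lt_min hδ0 one_pos, min_le_right _ _, hAe, hBe, hA1,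
    hK.add hK, ?_, ?_⟩
  · filter_upwards [hBb] with k hk ω
    rw [hB]
    exact hk ω
  · have e1 : x b - mk A * x a - mk B = mk (ξ b - A * ξ a - B) := by
      rw [map_sub, map_sub, map_mul, hξ, hξ]
    rw [e1, QS.rest_mk, mk_mem_Id (min_le_right _ _)]
    have hKS : S.Sub (fun k => 2 * K1 k + 1) := by
      have h1 := sub_down q hK1
      have h2 := (h1.add h1).add (S.Sub_const zero_le_one)
      have h3 : (fun k => K1 k + K1 k + 1) = fun k => 2 * K1 k + 1 := by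
        funext k
        ring
      rw [h3] at h2
      exact h2
    refine ⟨fun _ _ => True, fun k => 2 * K1 k + 1, Typ_true, hKS, ?_⟩
    filter_upwards [rest_mem _ hE, hK1.1] with k hk hk1 ω hω _
    obtain ⟨hs, hR⟩ := hk ω hω
    rw [TR.ev_zero, sub_zero]
    exact hpt k hk1 ω hs hR

end

end Pool.Agent.Helper24.T3
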