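import Pool.Agent.Helper24.T3.Agc

/-! (T3) from the agreement condition: bushes in general position, with any number of lines. -/

set_option autoImplicit false

namespace Pool.Agent.Helper24.T3

open Finset Filter Topology Pool.Agent.Helper69.RK Pool.Agent.Helper31.EC Pool.Agent.Helper31.EC.Sp
open Pool.Agent.Helper25.EC QS Pool.Agent.Helper38.NS

noncomputable section

variable {S : Sp}

/-- general position of a bush with `N + 1` lines, for some bush over the point, for all `N` -/
def T3E {d : ℕ} (s : FB S d) : Prop :=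
  ∀ N, ∃ C : CQ S s.fQ N, ∀ (g : Fin (d + 1) → Fin (N + 1)) (hg : Function.Injective g),
    IsUnit (FB.Mat (subCQ C g hg)).det

section

variable {α : ℕ → Type} {V : ∀ k, (S.F k).Ω → α k}

/-- the variable together with the base -/
def wZ (V : ∀ k, (S.F k).Ω → α k) : ∀ k, (S.F k).Ω → α k × Quotient (S.F k).Z :=
  fun k ω => (V k ω, Quotient.mk (S.F k).Z ω)

theorem wZ_bdd (hV : Bdd V) : Bdd (wZ V) := by
  apply hV.of_fun
  refine Eventually.of_forall fun k ω ω' _ _ hZ h => ?_
  unfold wZ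
  rw [h, Quotient.sound hZ]

theorem wZ_io (hV : Bdd V) : io (wZ V) = io V := by
  apply le_antisymm
  · apply io_le_of_fun hV
    refine Eventually.of_forall fun k ω ω' _ _ hZ h => ?_
    unfold wZ
    rw [h, Quotient.sound hZ]
  · apply io_le_of_fun (wZ_bdd hV)
    refine Eventually.of_forall fun k ω ω' _ _ _ h => ?_
    exact congrArg Prod.fst h

/-- one more copy -/
def snoc {n : ℕ} (C : Cps S V n) (hV : Bdd V) : Cps S V (n + 1) where
  W := ((C.p 0).join V).sp
  p := Fin.lastCases ((C.p 0).join V).p2 (fun i => ((C.p 0).join V).p1.comp (C.p i))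
  agree := by
    intro k w hw i j
    have hs := ((C.p 0).join V).supp k w hw
    have key : ∀ i : Fin (n + 1 + 1), V k ((Fin.lastCases (motive := fun _ => Pj ((C.p 0).join V).sp S)
        ((C.p 0).join V).p2 (fun i => ((C.p 0).join V).p1.comp (C.p i)) i).π k w) = V k w.2 := by
      intro i
      induction i using Fin.lastCases with
      | last => rw [Fin.lastCases_last]; rfl
      | cast i =>
        rw [Fin.lastCases_castSucc]
        have h1 := C.agree k w.1 hs.2.1 i 0
        have h2 := Pj.join_supp (C.p 0) V k w hw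
        exact h1.trans h2
    rw [key i, key j]
  common := by
    have key : ∀ i : Fin (n + 1 + 1), (Fin.lastCases (motive := fun _ => Pj ((C.p 0).join V).sp S)
        ((C.p 0).join V).p2 (fun i => ((C.p 0).join V).p1.comp (C.p i)) i).map (Sp.io V) =
          ((C.p 0).join V).p2.map (Sp.io V) := by
      intro i
      induction i using Fin.lastCases with
      | last => rw [Fin.lastCases_last]
      | cast i =>
        rw [Fin.lastCases_castSucc, Pj.comp_map, C.common i 0]
        exact Pj.join_common (C.p 0) V hV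
    intro i j
    rw [key i, key j]
  indep := by
    intro A
    rw [sup_univ_succ, Fin.sum_univ_castSucc]
    have e0 : (0 : Fin (n + 1 + 1)) = Fin.castSucc 0 := rfl
    rw [e0]
    simp only [Fin.lastCases_last, Fin.lastCases_castSucc, Pj.comp_map]
    rw [← sup_map ((C.p 0).join V).p1, h_chain]
    have h1 : Pool.Agent.Helper31.EC.h (((C.p 0).join V).p1.map (Finset.univ.sup fun i => (C.p i).map (A i.castSucc)))
        (((C.p 0).join V).p1.map ((C.p 0).map (Sp.io V))) = ∑ i : Fin (n + 1),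
          Pool.Agent.Helper31.EC.h (A i.castSucc) (Sp.io V) := by
      rw [Pj.h_map]
      exact C.indep fun i => A i.castSucc
    rw [h1]
    congr 1
    have h2 := Pj.join_indep (C.p 0) V hV (Finset.univ.sup fun i => (C.p i).map (A i.castSucc)) (A (Fin.last (n + 1)))
    rw [I_zero_iff_h'] at h2
    rw [h2, Pj.join_common (C.p 0) V hV, Pj.h_map]

theorem snoc_last {n : ℕ} (C : Cps S V n) (hV : Bdd V) :
    (snoc C hV).p (Fin.last (n + 1)) = ((C.p 0).join V).p2 :=
  Fin.lastCases_last (motive := fun _ => Pj ((C.p 0).join V).sp S)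

theorem snoc_cast {n : ℕ} (C : Cps S V n) (hV : Bdd V) (i : Fin (n + 1)) :
    (snoc C hV).p i.castSucc = ((C.p 0).join V).p1.comp (C.p i) :=
  Fin.lastCases_castSucc (motive := fun _ => Pj ((C.p 0).join V).sp S) i

/-- the trivial copies -/
def one (V : ∀ k, (S.F k).Ω → α k) : Cps S V 0 where
  W := S
  p := fun _ => Pj.id S
  agree := fun _ _ _ _ _ => rfl
  common := fun _ _ => rfl
  indep := fun A => by
    have h1 : (Finset.univ.sup fun i => (Pj.id S).map (A i)) = A 0 := by
      rw [sup_univ_succ]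
      simp [Pj.id_map]
    rw [h1, Pj.id_map]
    simp

/-- copies over the point -/
def toCQ {n : ℕ} (C : Cps S (wZ V) n) (hV : Bdd V) {ι : Type} [Fintype ι] (f : ι → QS S) (hf : ∀ i, f i ∈ Fn V)
    (hfv : vd f 1 = io V) : CQ S f n where
  W := C.W
  p := C.p
  com := by
    intro i j a
    obtain ⟨g, hg, hgf⟩ := hf a
    rw [← hgf]
    show mk ((C.p i).tr g) = mk ((C.p j).tr g)
    rw [mk_eq]
    apply Ag_of_pt
    refine Eventually.of_forall fun k w hw => ?_
    have h1 := C.agree k w hw i j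
    have h2 : (V k ((C.p i).π k w), Quotient.mk (S.F k).Z ((C.p i).π k w)) =
      (V k ((C.p j).π k w), Quotient.mk (S.F k).Z ((C.p j).π k w)) := h1
    rw [Prod.mk.injEq] at h2
    have h3 : TR.ev ((C.p i).tr g) k w = TR.ev ((C.p j).tr g) k w := hg k _ _ h2.1 (Quotient.exact h2.2)
    rw [h3, sub_self, abs_zero]
    exact (C.W.dl_pos _ k).le
  ind := by
    intro A
    rw [hfv, ← wZ_io hV]
    exact C.indep A

end

/-- twice the area of the triangle of three directions -/
def dt {W : Sp} (x : Fin 2 → QS S) (u v w : Pj W S) : QS W :=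
  (v.qs (x 0) - u.qs (x 0)) * (w.qs (x 1) - u.qs (x 1)) - (v.qs (x 1) - u.qs (x 1)) * (w.qs (x 0) - u.qs (x 0))

theorem dt_cyc {W : Sp} (x : Fin 2 → QS S) (u v w : Pj W S) : dt x u v w = dt x v w u := by
  unfold dt
  ring

theorem dt_comp {T W : Sp} (x : Fin 2 → QS S) (q : Pj T W) (u v w : Pj W S) :
    dt x (q.comp u) (q.comp v) (q.comp w) = q.qs (dt x u v w) := by
  unfold dt
  rw [map_sub, map_mul, map_mul, map_sub, map_sub, map_sub, map_sub]
  simp only [Pj.comp_qs]

/-- any three directions are in general position -/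
def GP {α : ℕ → Type} {V : ∀ k, (S.F k).Ω → α k} {n : ℕ} (C : Cps S V n) (x : Fin 2 → QS S) : Prop :=
  ∀ i j k, i ≠ j → j ≠ k → i ≠ k → IsUnit (dt x (C.p i) (C.p j) (C.p k))

theorem gp_snoc {α : ℕ → Type} {V : ∀ k, (S.F k).Ω → α k} (hV : Bdd V) {x : Fin 2 → QS S} {n : ℕ} (C : Cps S V n)
    (h : GP C x) (hnew : ∀ i j, i ≠ j → IsUnit (dt x (((C.p 0).join V).p1.comp (C.p i))
      (((C.p 0).join V).p1.comp (C.p j)) ((C.p 0).join V).p2)) : GP (snoc C hV) x := by
  have key : ∀ i j : Fin (n + 1), i ≠ j →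
      IsUnit (dt x ((snoc C hV).p i.castSucc) ((snoc C hV).p j.castSucc) ((snoc C hV).p (Fin.last (n + 1)))) := by
    intro i j hij
    rw [snoc_cast, snoc_cast, snoc_last]
    exact hnew i j hij
  intro i j k h1 h2 h3
  induction i using Fin.lastCases with
  | last =>
    rw [dt_cyc]
    induction j using Fin.lastCases with
    | last => exact absurd rfl h1
    | cast j =>
      induction k using Fin.lastCases with
      | last => exact absurd rfl h3
      | cast k => exact key j k fun e => h2 (congrArg Fin.castSucc e)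
  | cast i =>
    induction j using Fin.lastCases with
    | last =>
      rw [dt_cyc, dt_cyc]
      induction k using Fin.lastCases with
      | last => exact absurd rfl h2
      | cast k => exact key k i fun e => h3 (congrArg Fin.castSucc e.symm)
    | cast j =>
      induction k using Fin.lastCases with
      | last => exact key i j fun e => h1 (congrArg Fin.castSucc e)
      | cast k =>
        have h4 := (h i j k (fun e => h1 (congrArg Fin.castSucc e)) (fun e => h2 (congrArg Fin.castSucc e))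
          fun e => h3 (congrArg Fin.castSucc e)).map ((C.p 0).join V).p1.qs
        rw [← dt_comp] at h4
        rw [snoc_cast, snoc_cast, snoc_cast]
        exact h4

theorem det_eq {s : FB S 2} (C : CQ S s.fQ 2) : (FB.Mat C).det = dt s.x (C.p 0) (C.p 1) (C.p 2) := by
  have e0 : ∀ i, FB.Mat C i 0 = 1 := fun i => FB.Mat_zero _ i
  have e1 : ∀ i, FB.Mat C i 1 = (C.p i).qs (s.x 0) := fun i => rfl
  have e2 : ∀ i, FB.Mat C i 2 = (C.p i).qs (s.x 1) := fun i => rfl
  rw [Matrix.det_fin_three, e0, e0, e0, e1, e1, e1, e2, e2, e2]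
  unfold dt
  ring

theorem t3e_of_t3 {d : ℕ} {s : FB S d} (h : s.T3) : T3E s := by
  intro N
  obtain ⟨C⟩ := exists_CQ s.fQ N
  exact ⟨C, fun g hg => h _⟩

/-- base of dimension one: only richness is needed -/
theorem t3_one {s : FB S 1} (hR : Rich s.x (s.iT ⊔ (s.iY ⊔ s.iZ))) : s.T3 := by
  intro C
  have e : (FB.Mat C).det = (C.p 1).qs (s.x 0) - (C.p 0).qs (s.x 0) := by
    rw [Matrix.det_fin_two, FB.Mat_zero, FB.Mat_zero, FB.Mat_app, FB.Mat_app]
    show 1 * (C.p 1).qs (s.x 0) - (C.p 0).qs (s.x 0) * 1 = _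
    ring
  rw [e]
  by_contra hc
  obtain ⟨δ, E, hE, h0, h1, h2⟩ := small_of_not_unit hc
  have hv : ∀ i, (C.p i).map (s.iT ⊔ (s.iY ⊔ s.iZ)) = C.v := fun i => (FB.v_eq C i).symm
  refine hR.far (C.p 1) (C.p 0) ((hv 1).trans (hv 0).symm) ?_ E hE h0 h1 fun l => ?_
  · rw [hv 1]
    exact C.I_two (by decide) _ _
  · rw [Fin.fin_one_eq_zero l]
    exact h2

theorem t3e_one {s : FB S 1} (hR : Rich s.x (s.iT ⊔ (s.iY ⊔ s.iZ))) : T3E s := t3e_of_t3 (t3_one hR)

/-- the canonical copies: conditionally independent copies over the variable and the base, added one at a time -/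
def can {α : ℕ → Type} (V : ∀ k, (S.F k).Ω → α k) (hV : Bdd V) : ∀ n, Cps S (wZ V) n
  | 0 => one _
  | n + 1 => snoc (can V hV n) (wZ_bdd hV)

theorem can_succ {α : ℕ → Type} (V : ∀ k, (S.F k).Ω → α k) (hV : Bdd V) (n : ℕ) :
    can V hV (n + 1) = snoc (can V hV n) (wZ_bdd hV) := rfl

/-- **THEOREM**, canonical form. Base of dimension two: if no function of the point and the base is close to a function
of the line and the base, on an event, unless it is constant there, and if the direction is rich over the point, then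
any three lines of the canonical bush are in general position. -/
theorem gp_can {s : FB S 2} {α β : ℕ → Type} (VB : ∀ k, (S.F k).Ω → α k) (VA : ∀ k, (S.F k).Ω → β k)
    (hVB : Bdd VB) (hB : io VB = s.iT ⊔ (s.iY ⊔ s.iZ)) (hfB : ∀ j, s.fQ j ∈ Fn VB) (ha : ∀ i, s.a i ∈ Fn VA)
    (hx : ∀ i, s.x i ∈ Fn VA) (hag : AgC VB VA) (hR : Rich s.x (s.iT ⊔ (s.iY ⊔ s.iZ)))
    (hind : I s.iX (s.iT ⊔ (s.iY ⊔ s.iZ)) ⊥ = 0) (hq : Rl s.q ⊥) (n : ℕ) : GP (can VB hVB n) s.x := by
  have hVB' := wZ_bdd hVB
  have hfv : vd s.fQ 1 = io VB := by rw [FB.vd_fQ, hB]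
  rw [← hB] at hR hind
  induction n with
  | zero => exact fun i j k h1 _ _ => absurd (Fin.ext (by omega)) h1
  | succ n hC =>
    obtain ⟨C, hCd⟩ : ∃ C, C = can VB hVB n := ⟨_, rfl⟩
    rw [← hCd] at hC
    rw [can_succ, ← hCd]
    refine gp_snoc hVB' C hC fun i j hij => ?_
    by_contra hnu
    have hv : ∀ l, (C.p l).map (io VB) = (C.p 0).map (io VB) := by
      intro l
      rw [← wZ_io hVB]
      exact C.common l 0
    have hu := hR.vec_unit (C.p i) (C.p j) ((hv i).trans (hv j).symm) (by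
      have h1 := (toCQ C hVB s.fQ hfB hfv).I_two hij (vd s.x 1) (vd s.x 1)
      have h2 : (toCQ C hVB s.fQ hfB hfv).v = (C.p 0).map (io VB) := by
        rw [← hfv]
        rfl
      rw [h2, ← hv i] at h1
      exact h1)
    obtain ⟨a, b, δ, E, hE, A, B, L, hab, h0, h1, hA, hB', hA1, -, -, hrel⟩ := exists_chart (wZ VB) (C.p 0) (C.p i)
      (C.p j) s.x hu (by
        intro hc
        apply hnu
        unfold dt
        simp only [Pj.comp_qs]
        simp only [map_sub] at hc
        exact hc)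
    have hEx : ∀ f : TR S, ExF (wZ VB) f → ExF VB f := by
      intro f hf k ω ω' h hZ
      apply hf k ω ω' _ hZ
      unfold wZ
      rw [h, Quotient.sound hZ]
    exact no_chart VB VA hVB hfB ha hx hag hR hind hq hab h0 h1 E hE (hEx A hA) (hEx B hB') hA1 hrel

theorem t3e_of_gp {s : FB S 2} {α : ℕ → Type} (VB : ∀ k, (S.F k).Ω → α k) (hVB : Bdd VB)
    (hB : io VB = s.iT ⊔ (s.iY ⊔ s.iZ)) (hfB : ∀ j, s.fQ j ∈ Fn VB) (h : ∀ n, ∃ C : Cps S (wZ VB) n, GP C s.x) :
    T3E s := by
  have hfv : vd s.fQ 1 = io VB := by rw [FB.vd_fQ, hB]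
  intro N
  obtain ⟨C, hC⟩ := h N
  refine ⟨toCQ C hVB s.fQ hfB hfv, fun g hg => ?_⟩
  rw [det_eq]
  exact hC _ _ _ (hg.ne (by decide)) (hg.ne (by decide)) (hg.ne (by decide))

/-- **THEOREM.** Bushes with any number of lines in general position, base of dimension two -/
theorem t3e_two {s : FB S 2} {α β : ℕ → Type} (VB : ∀ k, (S.F k).Ω → α k) (VA : ∀ k, (S.F k).Ω → β k)
    (hVB : Bdd VB) (hB : io VB = s.iT ⊔ (s.iY ⊔ s.iZ)) (hfB : ∀ j, s.fQ j ∈ Fn VB) (ha : ∀ i, s.a i ∈ Fn VA)
    (hx : ∀ i, s.x i ∈ Fn VA) (hag : AgC VB VA) (hR : Rich s.x (s.iT ⊔ (s.iY ⊔ s.iZ)))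
    (hind : I s.iX (s.iT ⊔ (s.iY ⊔ s.iZ)) ⊥ = 0) (hq : Rl s.q ⊥) : T3E s :=
  t3e_of_gp VB hVB hB hfB fun n => ⟨can VB hVB n, gp_can VB VA hVB hB hfB ha hx hag hR hind hq n⟩

end

end Pool.Agent.Helper24.T3
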