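import Pool.Agent.Helper42.NS.Tow
import Pool.Agent.Helper31.EC.Uns

/-! An event of an extension of a restriction of `S` is an event of an extension of `S`: form for entropy lattices. -/

set_option autoImplicit false

namespace Pool.Agent.Helper24.T3

open Finset Filter Topology Pool.Agent.Helper69.RK Pool.Agent.Helper31.EC Pool.Agent.Helper40.EL
open Pool.Agent.Helper42.NS

noncomputable section

open Sp

variable {S : Sp}

/-- entropies on an event of an extension are entropies for the pushed law -/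
theorem im_rt {T : Sp} (p : Pj T S) (D : ∀ k, (T.F k).Ω → Prop) (A B : ∀ k, Setoid (S.F k).Ω) :
    (T.rest D).rt (p.pb A) (p.pb B) = (Sp.im p D).rt A B := by
  funext k
  exact (imq p D).rt_pb A B k

/-- a space from finite spaces of the same depths -/
def mkSp (S : Sp) (W : ℕ → FSp) (hn : ∀ k, (W k).n = (S.F k).n) : Sp where
  F := W
  lim := by
    have : (fun k => (W k).n) = fun k => (S.F k).n := funext hn
    rw [this]
    exact S.lim

theorem mu_heq {X Y : FSp} (h : X = Y) : HEq X.μ Y.μ := by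
  subst h
  rfl

theorem im_e {T F T' W : FSp} (p : FPj T F) (E : T.Ω → Prop) (p' : FPj T' (FSp.im p E)) (E' : T'.Ω → Prop)
    (q : FPj W F) (D : W.Ω → Prop) (h : FSp.im q D = FSp.im p' E') (A B : Setoid F.Ω) :
    (FSp.im q D).e A (B ⊓ F.Z) / F.n = (FSp.im p' E').e A (B ⊓ F.Z) / F.n := by
  have h1 : push q.π (W.rest D).μ = push p'.π (T'.rest E').μ := eq_of_heq (mu_heq h)
  have h2 : (FSp.im q D).e A (B ⊓ F.Z) = CH (push q.π (W.rest D).μ) (Quotient.mk A) (Quotient.mk (B ⊓ F.Z)) := rfl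
  have h3 : (FSp.im p' E').e A (B ⊓ F.Z) = CH (push p'.π (T'.rest E').μ) (Quotient.mk A) (Quotient.mk (B ⊓ F.Z)) := rfl
  rw [h2, h3, h1]
  rfl

theorem h_ext {T : Sp} (q : Pj T S) (D : ∀ k, (T.F k).Ω → Prop) (hD : 0 < ul (T.pr D)) (A B : S.Inf) :
    Pool.Agent.Helper31.EC.h (restL D hD (q.map (cl A))) (restL D hD (q.map (cl B))) =
      ul ((T.rest D).rt (q.pb A.1) (q.pb B.1)) := h_cl (restI D (q.mapI A)) (restI D (q.mapI B))

theorem h_ext2 (E : ∀ k, (S.F k).Ω → Prop) (hE : 0 < ul (S.pr E)) {T' : Sp} (p' : Pj T' (S.rest E))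
    (E' : ∀ k, (T'.F k).Ω → Prop) (hE' : 0 < ul (T'.pr E')) (A B : S.Inf) :
    Pool.Agent.Helper31.EC.h (restL E' hE' (p'.map (restL E hE (cl A))))
      (restL E' hE' (p'.map (restL E hE (cl B)))) = ul ((T'.rest E').rt (p'.pb A.1) (p'.pb B.1)) :=
  h_cl (restI E' (p'.mapI (restI E A))) (restI E' (p'.mapI (restI E B)))

/-- the projection to the restricted space, same points -/
def toIm (E : ∀ k, (S.F k).Ω → Prop) {T' : Sp} (p' : Pj T' (S.rest E)) : Pj T' (Sp.im (Pj.id S) E) :=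
  p'.comp (imq (Pj.id S) E)

theorem toIm_pb (E : ∀ k, (S.F k).Ω → Prop) {T' : Sp} (p' : Pj T' (S.rest E)) (A : ∀ k, Setoid (S.F k).Ω) :
    (toIm E p').pb A = p'.pb A := rfl

theorem fin_tow (E : ∀ k, (S.F k).Ω → Prop) {T' : Sp} (p' : Pj T' (S.rest E)) (E' : ∀ k, (T'.F k).Ω → Prop) (k : ℕ) :
    ∃ (W : FSp) (q : FPj W (S.F k)) (D : W.Ω → Prop), W.n = (S.F k).n ∧
      (∀ A B : Setoid (S.F k).Ω, (FSp.im q D).e A (B ⊓ (S.F k).Z) / (S.F k).n =
        (FSp.im ((toIm E p').fp k) (E' k)).e A (B ⊓ (S.F k).Z) / (S.F k).n) ∧ (S.F k).pb (E k) * (T'.F k).pb (E' k) ≤ W.pb D := by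
  obtain ⟨W, q, D, hn, him, hpb⟩ := exists_tower ((Pj.id S).fp k) ((Pj.id S).hn k) (E k) ((toIm E p').fp k)
    ((toIm E p').hn k) (E' k)
  exact ⟨W, q, D, hn, fun A B => im_e ((Pj.id S).fp k) (E k) ((toIm E p').fp k) (E' k) q D him A B, hpb⟩

/-- the space of a family of finite towers -/
def towPj {W : ℕ → FSp} (q : ∀ k, FPj (W k) (S.F k)) (hn : ∀ k, (W k).n = (S.F k).n) : Pj (mkSp S W hn) S where
  π := fun k => (q k).π
  law := fun k => (q k).law
  hZ := fun k => (q k).hZ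
  hn := hn

theorem tow_rt {W : ℕ → FSp} (q : ∀ k, FPj (W k) (S.F k)) (hn : ∀ k, (W k).n = (S.F k).n)
    (D : ∀ k, (W k).Ω → Prop) (A B : ∀ k, Setoid (S.F k).Ω) (k : ℕ) :
    ((mkSp S W hn).rest D).rt ((towPj q hn).pb A) ((towPj q hn).pb B) k =
      (FSp.im (q k) (D k)).e (A k) (B k ⊓ (S.F k).Z) / (S.F k).n :=
  (imq (towPj q hn) D).rt_pb A B k

theorem tow_rt' (E : ∀ k, (S.F k).Ω → Prop) {T' : Sp} (p' : Pj T' (S.rest E)) (E' : ∀ k, (T'.F k).Ω → Prop)
    (A B : ∀ k, Setoid (S.F k).Ω) (k : ℕ) :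
    (T'.rest E').rt (p'.pb A) (p'.pb B) k =
      (FSp.im ((toIm E p').fp k) (E' k)).e (A k) (B k ⊓ (S.F k).Z) / (S.F k).n :=
  (imq (toIm E p') E').rt_pb A B k

/-- TOWER -/
theorem tower (E : ∀ k, (S.F k).Ω → Prop) (hE : 0 < ul (S.pr E)) {T' : Sp} (p' : Pj T' (S.rest E))
    (E' : ∀ k, (T'.F k).Ω → Prop) (hE' : 0 < ul (T'.pr E')) :
    ∃ (W : Sp) (q : Pj W S) (D : ∀ k, (W.F k).Ω → Prop) (hD : 0 < ul (W.pr D)), ∀ x y : S.L,
      Pool.Agent.Helper31.EC.h (restL D hD (q.map x)) (restL D hD (q.map y)) =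
        Pool.Agent.Helper31.EC.h (restL E' hE' (p'.map (restL E hE x))) (restL E' hE' (p'.map (restL E hE y))) := by
  choose W q D hn he hpb using fin_tow E p' E'
  have hle : ul (S.pr E) * ul (T'.pr E') ≤ ul ((mkSp S W hn).pr D) :=
    ul_mul_le (UB_pr E) (UB_pr E') (UB_pr (S := mkSp S W hn) D) hpb
  have hD : 0 < ul ((mkSp S W hn).pr D) := lt_of_lt_of_le (mul_pos hE hE') hle
  refine ⟨mkSp S W hn, towPj q hn, D, hD, fun x y => ?_⟩
  induction x using cl_ind with | _ A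
  induction y using cl_ind with | _ B
  refine (h_ext (towPj q hn) D hD A B).trans (Eq.trans ?_ (h_ext2 E hE p' E' hE' A B).symm)
  exact congrArg ul (funext fun k => (tow_rt q hn D A.1 B.1 k).trans
    ((he k (A.1 k) (B.1 k)).trans (tow_rt' E p' E' A.1 B.1 k).symm))

/-- robustly unsaturated functions on events -/
theorem uns_rest {z : QS S} {A : S.L} {a0 c : ℝ} (h : UnS z A a0 c) (E : ∀ k, (S.F k).Ω → Prop)
    (hE : 0 < ul (S.pr E)) : UnS (QS.rest E hE z) (restL E hE A) a0 c := by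
  intro T' p' E' hE' a b h1 h2 h3
  obtain ⟨W, q, D, hD, hh⟩ := tower E hE p' E' hE'
  have h4 := h W q D hD a b h1 h2 h3
  rw [hh] at h4
  rw [QS.rest_dg, QS.rest_dg, ← restL_sup]
  exact h4

end

end Pool.Agent.Helper24.T3
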