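import Pool.Agent.Helper24.T3.Cht
import Pool.Agent.Helper24.T3.Tow
import Pool.Agent.Helper38.NS.T3C

/-! Rich directions: copies over the point are far from each other, on events of positive probability; the line which
contains the direction, on an event, has rate zero and is a function of everything that knows the direction. -/

set_option autoImplicit false

namespace Pool.Agent.Helper24.T3

open Finset Filter Topology Pool.Agent.Helper69.RK Pool.Agent.Helper31.EC Pool.Agent.Helper31.EC.Sp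
open Pool.Agent.Helper25.EC QS Pool.Agent.Helper38.NS

noncomputable section

/-- on no event of positive probability (of an extension) the first digits are known by `B` -/
def Rich {S : Sp} {ι : Type} [Fintype ι] (x : ι → QS S) (B : S.L) : Prop :=
  ∀ (T : Sp) (p : Pj T S) (E : ∀ k, (T.F k).Ω → Prop) (hE : 0 < ul (T.pr E)) (r : ℝ), 0 < r → r ≤ 1 →
    ¬ restL E hE (p.map (vd x r)) ≤ restL E hE (p.map B)

variable {S : Sp} {ι : Type} [Fintype ι] {x : ι → QS S} {B : S.L}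

theorem Rich.rest (h : Rich x B) (E : ∀ k, (S.F k).Ω → Prop) (hE : 0 < ul (S.pr E)) :
    Rich (fun i => QS.rest E hE (x i)) (restL E hE B) := by
  intro T' p' E' hE' r h0 h1 hc
  obtain ⟨W, q, D, hD, hh⟩ := tower E hE p' E' hE'
  apply h W q D hD r h0 h1
  rw [QS.rest_vd] at hc
  rw [← h_eq_zero_iff, hh]
  exact h_zero hc

theorem Rich.pull (h : Rich x B) {T : Sp} (p : Pj T S) : Rich (fun i => p.qs (x i)) (p.map B) := by
  intro T' p' E hE r h0 h1 hc
  apply h T' (p'.comp p) E hE r h0 h1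
  rw [p.qs_vd] at hc
  rw [Pj.comp_map, Pj.comp_map]
  exact hc

theorem Rich.anti (h : Rich x B) {B' : S.L} (hB : B' ≤ B) : Rich x B' := by
  intro T p E hE r h0 h1 hc
  exact h T p E hE r h0 h1 (hc.trans (restL_mono E hE (p.map_mono hB)))

/-- no event with constant first digits -/
theorem Rich.ne_bot (h : Rich x B) {T : Sp} (p : Pj T S) (E : ∀ k, (T.F k).Ω → Prop) (hE : 0 < ul (T.pr E)) {r : ℝ}
    (h0 : 0 < r) (h1 : r ≤ 1) (hc : ∀ i, dg (QS.rest E hE (p.qs (x i))) r = ⊥) : False := by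
  apply h T p E hE r h0 h1
  have h2 : restL E hE (p.map (vd x r)) = ⊥ := by
    rw [← p.qs_vd, ← QS.rest_vd]
    apply le_bot_iff.mp
    rw [vd_le]
    intro i
    rw [hc i]
  rw [h2]
  exact bot_le

/-- copies over the point are not close on events of positive probability -/
theorem Rich.far (h : Rich x B) {D : Sp} (p1 p2 : Pj D S) (hB : p1.map B = p2.map B)
    (hI : I (p1.map (vd x 1)) (p2.map (vd x 1)) (p1.map B) = 0) (E : ∀ k, (D.F k).Ω → Prop)
    (hE : 0 < ul (D.pr E)) {r : ℝ} (h0 : 0 < r) (h1 : r ≤ 1)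
    (hc : ∀ i, QS.rest E hE (p1.qs (x i) - p2.qs (x i)) ∈ Id (D.rest E) r) : False := by
  apply h D p1 E hE r h0 h1
  have e : restL E hE (p1.map (vd x r)) = restL E hE (p2.map (vd x r)) := by
    rw [← p1.qs_vd, ← p2.qs_vd, ← QS.rest_vd, ← QS.rest_vd]
    unfold vd
    congr 1
    funext i
    have h2 := hc i
    rw [map_sub] at h2
    exact dg_eq_of_sub_mem h2 le_rfl h1
  have h3 := I_rest_zero E hE hI
  have k1 : restL E hE (p1.map (vd x r)) ≤ restL E hE (p1.map (vd x 1)) :=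
    restL_mono E hE (p1.map_mono (vd_mono x h1))
  have k2 : restL E hE (p1.map (vd x r)) ≤ restL E hE (p2.map (vd x 1)) := by
    rw [e]
    exact restL_mono E hE (p2.map_mono (vd_mono x h1))
  have h4 : I (restL E hE (p1.map (vd x r))) (restL E hE (p1.map (vd x r))) (restL E hE (p1.map B)) = 0 :=
    I_zero_mono h3 (k1.trans le_sup_left) (k2.trans le_sup_left)
  rw [I_eq] at h4
  have h5 : Pool.Agent.Helper31.EC.h (restL E hE (p1.map (vd x r)))
      (restL E hE (p1.map (vd x r)) ⊔ restL E hE (p1.map B)) = 0 := h_zero le_sup_left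
  rw [h5, sub_zero] at h4
  exact h_eq_zero_iff.mp h4

theorem aux_sq {u v d : ℝ} (hd : 0 < d) (h : |u * u + v * v| < d * d) : |u| ≤ d ∧ |v| ≤ d := by
  have h1 := (abs_lt.mp h).2
  constructor
  · by_contra hc
    push Not at hc
    have h2 : d * d < |u| * |u| := mul_lt_mul'' hc hc hd.le hd.le
    rw [abs_mul_abs_self] at h2
    nlinarith [sq_nonneg v]
  · by_contra hc
    push Not at hc
    have h2 : d * d < |v| * |v| := mul_lt_mul'' hc hc hd.le hd.le
    rw [abs_mul_abs_self] at h2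
    nlinarith [sq_nonneg u]

/-- the difference of two copies is a unit as a vector -/
theorem Rich.vec_unit {x : Fin 2 → QS S} (h : Rich x B) {D : Sp} (p1 p2 : Pj D S) (hB : p1.map B = p2.map B)
    (hI : I (p1.map (vd x 1)) (p2.map (vd x 1)) (p1.map B) = 0) :
    IsUnit ((p2.qs (x 0) - p1.qs (x 0)) * (p2.qs (x 0) - p1.qs (x 0)) +
      (p2.qs (x 1) - p1.qs (x 1)) * (p2.qs (x 1) - p1.qs (x 1))) := by
  by_contra hcon
  obtain ⟨ξ, hξ⟩ : ∃ ξ : Fin 2 → TR S, ∀ l, mk (ξ l) = x l := ⟨fun l => rep (x l), fun l => mk_rep _⟩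
  obtain ⟨Δ, hΔ⟩ : ∃ Δ : Fin 2 → TR D, Δ = fun l => p2.tr (ξ l) - p1.tr (ξ l) := ⟨_, rfl⟩
  have hΔm : ∀ l, mk (Δ l) = p2.qs (x l) - p1.qs (x l) := by
    intro l
    rw [hΔ, ← hξ]
    exact map_sub _ _ _
  have e1 : ¬ IsUnit (mk (Δ 0 * Δ 0 + Δ 1 * Δ 1)) := by
    rw [map_add, map_mul, map_mul, hΔm, hΔm]
    exact hcon
  obtain ⟨δ, hδ, hpos⟩ := not_unit_event _ e1
  obtain ⟨r, hr⟩ : ∃ r, r = min (δ / 2) 1 := ⟨_, rfl⟩
  have hr0 : 0 < r := by
    rw [hr]
    exact lt_min (by linarith) one_pos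
  have hr1 : r ≤ 1 := by
    rw [hr]
    exact min_le_right _ _
  have hrd : r ≤ δ / 2 := by
    rw [hr]
    exact min_le_left _ _
  have pw : ∀ k (ω : (D.F k).Ω), ¬ D.dl δ k ≤ |TR.ev (Δ 0 * Δ 0 + Δ 1 * Δ 1) k ω| →
      ∀ l, |TR.ev (Δ l) k ω| ≤ D.dl r k := by
    intro k ω h2 l
    rw [not_le, TR.ev_add, TR.ev_mul, TR.ev_mul] at h2
    have h3 : D.dl δ k = D.dl (δ / 2) k * D.dl (δ / 2) k := by
      rw [← D.dl_add]
      congr 1
      ring
    rw [h3] at h2
    have h4 := aux_sq (D.dl_pos _ k) h2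
    have h5 : |TR.ev (Δ l) k ω| ≤ D.dl (δ / 2) k := by
      fin_cases l
      · exact h4.1
      · exact h4.2
    exact h5.trans (D.dl_anti hrd k)
  have key : ∀ l, QS.rest _ hpos (p2.qs (x l) - p1.qs (x l)) ∈
      Id (D.rest fun k ω => ¬ D.dl δ k ≤ |TR.ev (Δ 0 * Δ 0 + Δ 1 * Δ 1) k ω|) r := by
    intro l
    rw [← hΔm, QS.rest_mk, mk_mem_Id hr1]
    apply Ag_of_pt
    filter_upwards [rest_mem _ hpos] with k hk ω hω
    obtain ⟨_, h2⟩ := hk ω hω
    have h3 := pw k ω h2 l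
    rw [TR.ev_zero, sub_zero]
    exact h3
  refine h.far p1 p2 hB hI _ hpos hr0 hr1 fun i => ?_
  have h6 := (Id _ r).neg_mem (key i)
  have h7 : -QS.rest _ hpos (p2.qs (x i) - p1.qs (x i)) = QS.rest _ hpos (p1.qs (x i) - p2.qs (x i)) := by
    rw [← map_neg]
    congr 1
    ring
  rw [h7] at h6
  exact h6

theorem zero_of {L : Type*} [PM L] {X Y Z : L} (h : I X Y ⊥ = 0) (h1 : Z ≤ X) (h2 : Z ≤ Y) : Z = ⊥ := by
  have h3 : I Z Z ⊥ = 0 := I_zero_mono h (h1.trans le_sup_left) (h2.trans le_sup_left)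
  rw [I_eq, sup_bot_eq] at h3
  have h5 : Pool.Agent.Helper31.EC.h Z Z = 0 := h_zero le_rfl
  rw [h5, sub_zero] at h3
  exact le_bot_iff.mp (h_eq_zero_iff.mp h3)

/-- STEP C: the line has rate zero -/
theorem line_bot {x : Fin 2 → QS S} {α : ℕ → Type} (V : ∀ k, (S.F k).Ω → α k) (hV : Bdd V)
    (hind : I (vd x 1) (io V) ⊥ = 0) (hR : Rich x (io V)) {a b : Fin 2} (hab : ∀ l, l = a ∨ l = b) {δ : ℝ}
    (hδ : 0 < δ) (hδ1 : δ ≤ 1) {A B : TR S} (hA : ExF V A) (hB : ExF V B)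
    (hrel : x b - mk A * x a - mk B ∈ Id S δ) : dg (mk A) δ = ⊥ ∧ dg (mk B) δ = ⊥ := by
  obtain ⟨w1, hw1⟩ : ∃ w : Pj (two V) S, w = two1 V := ⟨_, rfl⟩
  obtain ⟨w2, hw2⟩ : ∃ w : Pj (two V) S, w = two2 V := ⟨_, rfl⟩
  have hcom : w1.map (io V) = w2.map (io V) := by
    rw [hw1, hw2]
    have h1 := (Pj.id S).join_common V hV
    rw [Pj.id_map] at h1
    exact h1
  have hci : ∀ x y : S.L, I (w1.map x) (w2.map y) (w1.map (io V)) = 0 := by
    intro x y
    rw [hw1, hw2]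
    have h1 := (Pj.id S).join_indep V hV x y
    rw [Pj.id_map] at h1
    exact h1
  have hex : ∀ f : TR S, ExF V f → w1.qs (mk f) = w2.qs (mk f) := by
    intro f hf
    show mk (w1.tr f) = mk (w2.tr f)
    rw [mk_eq]
    apply Ag_of_pt
    refine Eventually.of_forall fun k w hw => ?_
    have h1 := (((Pj.id S).join V).supp k w hw).1
    have h2 : (V k w.1, Quotient.mk (S.F k).Z w.1) = (V k w.2, Quotient.mk (S.F k).Z w.2) := h1
    rw [Prod.mk.injEq] at h2
    have h3 : TR.ev f k w.1 = TR.ev f k w.2 := hf k _ _ h2.1 (Quotient.exact h2.2)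
    have h4 : TR.ev (w1.tr f) k w = TR.ev (w2.tr f) k w := by
      rw [hw1, hw2]
      exact h3
    rw [h4, sub_self, abs_zero]
    exact ((two V).dl_pos _ k).le
  -- the difference of the relation
  obtain ⟨Da, hDa⟩ : ∃ Da, Da = w1.qs (x a) - w2.qs (x a) := ⟨_, rfl⟩
  obtain ⟨Db, hDb⟩ : ∃ Db, Db = w1.qs (x b) - w2.qs (x b) := ⟨_, rfl⟩
  have hd : Db - w1.qs (mk A) * Da ∈ Id (two V) δ := by
    have h1 := (Id (two V) δ).sub_mem ((w1.qs_mem_Id hδ1).mpr hrel) ((w2.qs_mem_Id hδ1).mpr hrel)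
    rw [map_sub, map_sub, map_mul, map_sub, map_sub, map_mul, ← hex A hA, ← hex B hB] at h1
    have e : w1.qs (x b) - w1.qs (mk A) * w1.qs (x a) - w1.qs (mk B) -
        (w2.qs (x b) - w1.qs (mk A) * w2.qs (x a) - w1.qs (mk B)) = Db - w1.qs (mk A) * Da := by
      rw [hDa, hDb]
      ring
    rw [e] at h1
    exact h1
  have hunit : IsUnit Da := by
    by_contra hcon
    obtain ⟨δ', E, hE, h0, h1, h2⟩ := small_of_not_unit hcon
    have hm : 0 < min δ δ' := lt_min hδ h0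
    have ha : QS.rest E hE Da ∈ Id _ (min δ δ') := Id_anti (min_le_right _ _) h2
    have hb : QS.rest E hE Db ∈ Id _ (min δ δ') := by
      have h3 := rest_mem_Id E hE hδ1 hd
      rw [map_sub, map_mul] at h3
      have h4 := (Id _ (min δ δ')).add_mem (Id_anti (min_le_left _ _) h3)
        ((Id _ (min δ δ')).mul_mem_left (QS.rest E hE (w1.qs (mk A))) ha)
      rwa [sub_add_cancel] at h4
    refine hR.far w1 w2 hcom (hci _ _) E hE hm ((min_le_left _ _).trans hδ1) fun l => ?_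
    rcases hab l with rfl | rfl
    · rw [← hDa]
      exact ha
    · rw [← hDb]
      exact hb
  obtain ⟨u, hu⟩ := hunit.exists_left_inv
  have hBdg : ∀ f : TR S, ExF V f → dg (mk f) δ ≤ io V := fun f hf => Fn_dg hV ⟨f, hf, rfl⟩ hδ1
  have hA1 : dg (w1.qs (mk A)) δ ≤ w1.map (vd x 1) ⊔ w2.map (vd x 1) := by
    have h1 : w1.qs (mk A) - u * Db ∈ Id (two V) δ := by
      have h2 := (Id (two V) δ).mul_mem_left (-u) hd
      have e : -u * (Db - w1.qs (mk A) * Da) = w1.qs (mk A) * (u * Da) - u * Db := by ring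
      rw [e, hu, mul_one] at h2
      exact h2
    rw [dg_eq_of_sub_mem h1 le_rfl hδ1]
    have kx : ∀ l, dg (w1.qs (x l)) δ ≤ w1.map (vd x 1) ⊔ w2.map (vd x 1) := fun l => by
      rw [w1.qs_dg]
      exact (w1.map_mono ((dg_mono _ hδ1).trans (dg_le_vd x 1 l))).trans le_sup_left
    have kx' : ∀ l, dg (w2.qs (x l)) δ ≤ w1.map (vd x 1) ⊔ w2.map (vd x 1) := fun l => by
      rw [w2.qs_dg]
      exact (w2.map_mono ((dg_mono _ hδ1).trans (dg_le_vd x 1 l))).trans le_sup_right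
    have kD : dg Da δ ≤ w1.map (vd x 1) ⊔ w2.map (vd x 1) := by
      rw [hDa]
      exact (Kn _ δ hδ1 _).sub_mem (kx a) (kx' a)
    refine (Kn _ δ hδ1 _).mul_mem ((dg_inv_le hu hδ1).trans kD) ?_
    rw [hDb]
    exact (Kn _ δ hδ1 _).sub_mem (kx b) (kx' b)
  have hI2 : I (w1.map (vd x 1) ⊔ w2.map (vd x 1)) (w1.map (io V)) ⊥ = 0 := by
    have j1 : I (w1.map (vd x 1)) (w1.map (io V)) ⊥ = 0 := by
      have h1 := w1.I_map (vd x 1) (io V) ⊥
      rw [hind, w1.map_bot] at h1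
      exact h1
    have j2 : I (w2.map (vd x 1)) (w1.map (io V)) ⊥ = 0 := by
      have h1 := w2.I_map (vd x 1) (io V) ⊥
      rw [hind, w2.map_bot, ← hcom] at h1
      exact h1
    have j3 : I (w2.map (vd x 1)) (w1.map (io V) ⊔ w1.map (vd x 1)) ⊥ = 0 :=
      ind_add j2 (ind_symm (hci (vd x 1) (vd x 1))) (by rw [sup_bot_eq])
    have j4 : I (w2.map (vd x 1)) (w1.map (io V)) (w1.map (vd x 1)) = 0 := by
      refine ind_of j3 bot_le ?_ le_sup_left (by order)
      rw [sup_bot_eq]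
      exact le_sup_right
    rw [I_chain, j1, zero_add, sup_bot_eq]
    exact j4
  have a0 : dg (mk A) δ = ⊥ := by
    have h1 : dg (w1.qs (mk A)) δ = ⊥ := by
      refine zero_of hI2 hA1 ?_
      rw [w1.qs_dg]
      exact w1.map_mono (hBdg A hA)
    rw [w1.qs_dg, ← w1.map_bot] at h1
    exact w1.map_injective h1
  refine ⟨a0, ?_⟩
  refine zero_of hind ?_ (hBdg B hB)
  have h1 : mk B - (x b - mk A * x a) ∈ Id S δ := by
    have h2 := (Id S δ).neg_mem hrel
    have e : -(x b - mk A * x a - mk B) = mk B - (x b - mk A * x a) := by ring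
    rw [e] at h2
    exact h2
  rw [dg_eq_of_sub_mem h1 le_rfl hδ1]
  refine (Kn _ δ hδ1 _).sub_mem ((dg_mono _ hδ1).trans (dg_le_vd x 1 b)) ?_
  refine (Kn _ δ hδ1 _).mul_mem ?_ ((dg_mono _ hδ1).trans (dg_le_vd x 1 a))
  show dg (mk A) δ ≤ _
  rw [a0]
  exact bot_le

end

end Pool.Agent.Helper24.T3
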